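import Pool.Agent.Helper92.HX.Defs

namespace Pool.Agent.Helper92.HX

open Finset

variable {V : Type*}

lemma IsHex.rot {G : SimpleGraph V} {f : Fin 6 → V} (hf : IsHex G f) (i : Fin 6) :
    IsHex G (fun k => f (k + i)) := by
  refine ⟨fun a b h => add_right_cancel (hf.1 h), fun k => ?_⟩
  have h := hf.2 (k + i)
  have e : k + i + 1 = k + 1 + i := by abel
  rw [e] at h
  exact h

lemma IsHex.refl {G : SimpleGraph V} {f : Fin 6 → V} (hf : IsHex G f) :
    IsHex G (fun k => f (- k)) := by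
  refine ⟨fun a b h => neg_injective (hf.1 h), fun k => ?_⟩
  have h := (hf.2 (- (k + 1))).symm
  have e : - (k + 1) + 1 = - k := by abel
  rw [e] at h
  exact h

variable [Fintype V] [DecidableEq V] {G : SimpleGraph V} [DecidableRel G.Adj]

lemma card_rot (P : (Fin 6 → V) → Prop) [DecidablePred P] (i : Fin 6) :
    (univ.filter fun f : Fin 6 → V => IsHex G f ∧ P (fun k => f (k + i))).card ≤
      (univ.filter fun f : Fin 6 → V => IsHex G f ∧ P f).card := by
  refine card_le_card_of_injOn (fun f k => f (k + i)) ?_ ?_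
  · intro f hf
    simp only [coe_filter, mem_univ, true_and, Set.mem_ofPred_eq] at hf ⊢
    exact ⟨hf.1.rot i, hf.2⟩
  · intro f _ g _ h
    funext k
    have := congrFun h (k - i)
    simpa using this

lemma card_refl (P : (Fin 6 → V) → Prop) [DecidablePred P] :
    (univ.filter fun f : Fin 6 → V => IsHex G f ∧ P (fun k => f (- k))).card ≤
      (univ.filter fun f : Fin 6 → V => IsHex G f ∧ P f).card := by
  refine card_le_card_of_injOn (fun f k => f (- k)) ?_ ?_
  · intro f hf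
    simp only [coe_filter, mem_univ, true_and, Set.mem_ofPred_eq] at hf ⊢
    exact ⟨hf.1.refl, hf.2⟩
  · intro f _ g _ h
    funext k
    have := congrFun h (- k)
    simpa using this

lemma High.symm {a b : V} (h : High G a b) : High G b a :=
  ⟨h.1.symm, by have := h.2; unfold cod at *; rwa [inter_comm]⟩

lemma cod_comm (a b : V) : cod G a b = cod G b a := by
  unfold cod; rw [inter_comm]

lemma exists_common {a b : V} {S : Finset V} (h : S.card < cod G a b) :
    ∃ w, G.Adj a w ∧ G.Adj w b ∧ w ∉ S := by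
  by_contra hc
  push Not at hc
  have : G.neighborFinset a ∩ G.neighborFinset b ⊆ S := by
    intro w hw
    rw [mem_inter, SimpleGraph.mem_neighborFinset, SimpleGraph.mem_neighborFinset] at hw
    exact hc w hw.1 hw.2.symm
  have := card_le_card this
  unfold cod at h
  omega

lemma High.pick {a b : V} (h : High G a b) (S : Finset V) (hS : S.card ≤ 5) :
    ∃ w, G.Adj a w ∧ G.Adj w b ∧ w ∉ S :=
  exists_common (lt_of_le_of_lt hS (by have := h.2; omega))

lemma not_consec_zero (hG : NoC8 G) {f : Fin 6 → V} (hf : IsHex G f)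
    (h1 : High G (f 0) (f 2)) (h2 : High G (f 1) (f 3)) : False := by
  obtain ⟨w, hw1, hw2, hw3⟩ := h1.pick {f 1, f 3, f 4, f 5}
    (le_trans (card_le_four) (by norm_num))
  obtain ⟨w', hv1, hv2, hv3⟩ := h2.pick {f 0, f 2, f 4, f 5, w} card_le_five
  have n : ∀ i j : Fin 6, i ≠ j → f i ≠ f j := fun i j hij => hf.1.ne hij
  have a : ∀ i, G.Adj (f i) (f (i + 1)) := hf.2
  simp only [mem_insert, mem_singleton, not_or] at hw3 hv3
  obtain ⟨p1, p2, p3, p4⟩ := hw3
  obtain ⟨q1, q2, q3, q4, q5⟩ := hv3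
  refine hG (f 3) (f 4) (f 5) (f 0) w (f 2) (f 1) w' ?_ (a 3) (a 4) (a 5) hw1 hw2 (a 1).symm
    hv1 hv2
  have e1 := hw1.ne
  have e2 := hw2.ne
  have e3 := hv1.ne
  have e4 := hv2.ne
  simp only [List.nodup_cons, List.mem_cons, List.not_mem_nil, or_false, not_or,
    not_false_eq_true, List.nodup_nil, and_true]
  refine ⟨⟨n _ _ (by decide), n _ _ (by decide), n _ _ (by decide), Ne.symm p2,
    n _ _ (by decide), n _ _ (by decide), e4.symm⟩, ⟨n _ _ (by decide), n _ _ (by decide),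
    Ne.symm p3, n _ _ (by decide), n _ _ (by decide), Ne.symm q3⟩, ⟨n _ _ (by decide),
    Ne.symm p4, n _ _ (by decide), n _ _ (by decide), Ne.symm q4⟩, ⟨e1, n _ _ (by decide),
    n _ _ (by decide), Ne.symm q1⟩, ⟨e2, p1, Ne.symm q5⟩, ⟨n _ _ (by decide), Ne.symm q2⟩, e3⟩

lemma not_consec (hG : NoC8 G) {f : Fin 6 → V} (hf : IsHex G f) (i : Fin 6)
    (h1 : High G (f i) (f (i + 2))) (h2 : High G (f (i + 1)) (f (i + 3))) : False := by
  refine not_consec_zero hG (hf.rot i) ?_ ?_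
  · simpa [add_comm] using h1
  · simpa [add_comm] using h2

/-- the graph of high pairs has no four-cycle -/
lemma hi_noC4 (hG : NoC8 G) {a b c d : V} (hac : a ≠ c) (hbd : b ≠ d)
    (h1 : High G a b) (h2 : High G b c) (h3 : High G c d) (h4 : High G d a) : False := by
  obtain ⟨x, x1, x2, x3⟩ := h1.pick {c, d} (le_trans card_le_two (by norm_num))
  obtain ⟨y, y1, y2, y3⟩ := h2.pick {a, d, x} (le_trans card_le_three (by norm_num))
  obtain ⟨z, z1, z2, z3⟩ := h3.pick {a, b, x, y} (le_trans card_le_four (by norm_num))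
  obtain ⟨w, w1, w2, w3⟩ := h4.pick {b, c, x, y, z} card_le_five
  simp only [mem_insert, mem_singleton, not_or] at x3 y3 z3 w3
  obtain ⟨p1, p2⟩ := x3
  obtain ⟨q1, q2, q3⟩ := y3
  obtain ⟨r1, r2, r3, r4⟩ := z3
  obtain ⟨s1, s2, s3, s4, s5⟩ := w3
  refine hG a x b y c z d w ?_ x1 x2 y1 y2 z1 z2 w1 w2
  simp only [List.nodup_cons, List.mem_cons, List.not_mem_nil, or_false, not_or,
    not_false_eq_true, List.nodup_nil, and_true]
  exact ⟨⟨x1.ne, h1.1, Ne.symm q1, hac, Ne.symm r1, h4.1.symm, w2.ne.symm⟩,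
    ⟨x2.ne, Ne.symm q3, p1, Ne.symm r3, p2, Ne.symm s3⟩,
    ⟨y1.ne, h2.1, Ne.symm r2, hbd, Ne.symm s1⟩,
    ⟨y2.ne, Ne.symm r4, q2, Ne.symm s4⟩, ⟨z1.ne, h3.1, Ne.symm s2⟩,
    ⟨z2.ne, Ne.symm s5⟩, w1.ne⟩

/-- combinatorial classification of the set of high distance-two pairs -/
lemma pattern (p : Fin 6 → Bool) (h : ∀ i, ¬ (p i = true ∧ p (i + 1) = true)) :
    (p 0 = true ∧ p 2 = true ∧ p 4 = true) ∨ (p 1 = true ∧ p 3 = true ∧ p 5 = true) ∨
      ∃ i, p i = false ∧ p (i + 3) = false := by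
  revert p
  decide

lemma hex_cases (hG : NoC8 G) {f : Fin 6 → V} (hf : IsHex G f) :
    (High G (f 0) (f 2) ∧ High G (f 2) (f 4) ∧ High G (f 4) (f 0)) ∨
    (High G (f 1) (f 3) ∧ High G (f 3) (f 5) ∧ High G (f 5) (f 1)) ∨
    ∃ i : Fin 6, ¬ High G (f i) (f (i + 2)) ∧ ¬ High G (f (i + 3)) (f (i + 5)) := by
  have := pattern (fun i => decide (High G (f i) (f (i + 2)))) ?_
  · simp only [decide_eq_true_eq, decide_eq_false_iff_not] at this
    rcases this with h | h | ⟨i, h1, h2⟩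
    · exact Or.inl h
    · exact Or.inr (Or.inl h)
    · refine Or.inr (Or.inr ⟨i, h1, ?_⟩)
      have e : i + 3 + 2 = i + 5 := by rw [add_assoc]; rfl
      rw [e] at h2
      exact h2
  · intro i
    simp only [decide_eq_true_eq]
    rintro ⟨h1, h2⟩
    have e : i + 1 + 2 = i + 3 := by rw [add_assoc]; rfl
    rw [e] at h2
    exact not_consec hG hf i h1 h2

end Pool.Agent.Helper92.HX
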