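import Pool.Agent.Helper92.HX.Moments

namespace Pool.Agent.Helper92.HX

open Finset

variable {V : Type*} [Fintype V] [DecidableEq V] {G : SimpleGraph V} [DecidableRel G.Adj]

lemma card_darts : ((univ.filter fun p : V × V => G.Adj p.1 p.2).card) = ∑ v, G.degree v := by
  rw [card_filter, Fintype.sum_prod_type]
  refine sum_congr rfl fun v _ => ?_
  rw [← card_filter, ← SimpleGraph.card_neighborFinset_eq_degree]
  congr 1
  ext w
  simp

lemma opp_low_zero : (univ.filter fun f : Fin 6 → V => IsHex G f ∧
    (¬ High G (f 0) (f 2) ∧ ¬ High G (f 3) (f 5))).card ≤ 25 * (∑ v, G.degree v) ^ 2 := by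
  classical
  have key := card_le_mul_card_image_of_maps_to
    (s := univ.filter fun f : Fin 6 → V => IsHex G f ∧
      (¬ High G (f 0) (f 2) ∧ ¬ High G (f 3) (f 5)))
    (t := (univ.filter fun p : V × V => G.Adj p.1 p.2) ×ˢ
      (univ.filter fun p : V × V => G.Adj p.1 p.2))
    (f := fun f => ((f 2, f 3), (f 5, f 0))) (n := 25) ?_ ?_
  · rw [card_product, card_darts] at key
    rw [sq]
    exact key
  · intro f hf
    rw [mem_filter] at hf
    rw [mem_product, mem_filter, mem_filter]
    exact ⟨⟨mem_univ _, hf.2.1.2 2⟩, ⟨mem_univ _, hf.2.1.2 5⟩⟩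
  · rintro ⟨⟨p2, p3⟩, ⟨p5, p0⟩⟩ _
    rcases Finset.eq_empty_or_nonempty ((univ.filter fun f : Fin 6 → V => IsHex G f ∧
      (¬ High G (f 0) (f 2) ∧ ¬ High G (f 3) (f 5))).filter
        fun f => ((f 2, f 3), (f 5, f 0)) = ((p2, p3), (p5, p0))) with he | ⟨f0, hf0⟩
    · rw [he]; simp
    · rw [mem_filter, mem_filter] at hf0
      obtain ⟨⟨_, h1, h2, h3⟩, h4⟩ := hf0
      simp only [Prod.mk.injEq] at h4
      obtain ⟨⟨e2, e3⟩, ⟨e5, e0⟩⟩ := h4
      have n02 : f0 0 ≠ f0 2 := h1.1.ne (by decide)
      have n35 : f0 3 ≠ f0 5 := h1.1.ne (by decide)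
      have c1 := cod_low n02 h2
      have c2 := cod_low n35 h3
      rw [e0, e2] at c1
      rw [e3, e5] at c2
      calc _ ≤ ((G.neighborFinset p0 ∩ G.neighborFinset p2) ×ˢ
            (G.neighborFinset p3 ∩ G.neighborFinset p5)).card := by
            refine card_le_card_of_injOn (fun f => (f 1, f 4)) ?_ ?_
            · intro f hf
              rw [mem_coe, mem_filter, mem_filter] at hf
              obtain ⟨⟨_, g1, _⟩, g4⟩ := hf
              simp only [Prod.mk.injEq] at g4
              obtain ⟨⟨e2, e3⟩, ⟨e5, e0⟩⟩ := g4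
              rw [mem_coe, mem_product, mem_inter, mem_inter]
              simp only [SimpleGraph.mem_neighborFinset]
              rw [← e0, ← e2, ← e3, ← e5]
              exact ⟨⟨g1.2 0, (g1.2 1).symm⟩, ⟨g1.2 3, (g1.2 4).symm⟩⟩
            · intro f hf g hg hfg
              rw [mem_coe, mem_filter] at hf hg
              have h4 := hf.2
              have g4 := hg.2
              simp only [Prod.mk.injEq] at h4 g4 hfg
              funext i
              fin_cases i
              · exact h4.2.2.trans g4.2.2.symm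
              · exact hfg.1
              · exact h4.1.1.trans g4.1.1.symm
              · exact h4.1.2.trans g4.1.2.symm
              · exact hfg.2
              · exact h4.2.1.trans g4.2.1.symm
        _ ≤ 5 * 5 := by
            rw [card_product]
            exact Nat.mul_le_mul c1 c2
        _ = 25 := by norm_num

/-- the triangles of the high graph -/
def Tri (G : SimpleGraph V) [DecidableRel G.Adj] : Finset (Finset V) :=
  univ.filter fun T => T.card = 3 ∧ ∀ x ∈ T, ∀ y ∈ T, x ≠ y → High G x y

lemma fiber_bound (a b c : V) :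
    (univ.filter fun f : Fin 6 → V => IsHex G f ∧ ({f 0, f 2, f 4} : Finset V) = {a, b, c}).card ≤
      6 * (cod G a b * cod G b c * cod G c a) := by
  classical
  have hfib : ∀ x y z : V, (univ.filter fun f : Fin 6 → V => IsHex G f ∧
      (f 0, f 2, f 4) = (x, y, z)).card ≤ cod G x y * cod G y z * cod G z x := by
    intro x y z
    unfold cod
    rw [mul_assoc, ← card_product, ← card_product]
    refine card_le_card_of_injOn (fun f => (f 1, f 3, f 5)) ?_ ?_
    · intro f hf
      rw [mem_coe, mem_filter] at hf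
      obtain ⟨_, g1, g4⟩ := hf
      simp only [Prod.mk.injEq] at g4
      obtain ⟨e0, e2, e4⟩ := g4
      rw [mem_coe, mem_product, mem_product, mem_inter, mem_inter, mem_inter]
      simp only [SimpleGraph.mem_neighborFinset]
      rw [← e0, ← e2, ← e4]
      exact ⟨⟨g1.2 0, (g1.2 1).symm⟩, ⟨g1.2 2, (g1.2 3).symm⟩, ⟨g1.2 4, (g1.2 5).symm⟩⟩
    · intro f hf g hg hfg
      rw [mem_coe, mem_filter] at hf hg
      have h4 := hf.2.2
      have g4 := hg.2.2
      simp only [Prod.mk.injEq] at h4 g4 hfg
      funext i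
      fin_cases i
      · exact h4.1.trans g4.1.symm
      · exact hfg.1
      · exact h4.2.1.trans g4.2.1.symm
      · exact hfg.2.1
      · exact h4.2.2.trans g4.2.2.symm
      · exact hfg.2.2
  have key := card_le_mul_card_image_of_maps_to
    (s := univ.filter fun f : Fin 6 → V => IsHex G f ∧ ({f 0, f 2, f 4} : Finset V) = {a, b, c})
    (t := {(a, b, c), (a, c, b), (b, a, c), (b, c, a), (c, a, b), (c, b, a)})
    (f := fun f => (f 0, f 2, f 4)) (n := cod G a b * cod G b c * cod G c a) ?_ ?_
  · refine key.trans ?_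
    rw [mul_comm]
    exact Nat.mul_le_mul_right _ card_le_six
  · intro f hf
    rw [mem_filter] at hf
    obtain ⟨_, h1, h2⟩ := hf
    have n02 : f 0 ≠ f 2 := h1.1.ne (by decide)
    have n04 : f 0 ≠ f 4 := h1.1.ne (by decide)
    have n24 : f 2 ≠ f 4 := h1.1.ne (by decide)
    have m0 : f 0 ∈ ({a, b, c} : Finset V) := h2 ▸ (by simp)
    have m2 : f 2 ∈ ({a, b, c} : Finset V) := h2 ▸ (by simp)
    have m4 : f 4 ∈ ({a, b, c} : Finset V) := h2 ▸ (by simp)
    simp only [mem_insert, mem_singleton, Prod.mk.injEq] at m0 m2 m4 ⊢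
    rcases m0 with m0 | m0 | m0 <;> rcases m2 with m2 | m2 | m2 <;>
      rcases m4 with m4 | m4 | m4 <;> rw [m0] at n02 n04 <;> rw [m2] at n02 n24 <;>
      rw [m4] at n04 n24 <;> first
        | exact absurd rfl n02
        | exact absurd rfl n04
        | exact absurd rfl n24
        | (simp only [m0, m2, m4, true_and, and_true, and_self, true_or, or_true])
  · intro p hp
    have hsub : ∀ x y z : V, (({f ∈ (univ.filter fun f : Fin 6 → V => IsHex G f ∧
        ({f 0, f 2, f 4} : Finset V) = {a, b, c}) | (f 0, f 2, f 4) = (x, y, z)}).card) ≤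
        cod G x y * cod G y z * cod G z x := by
      intro x y z
      refine le_trans (card_le_card ?_) (hfib x y z)
      intro f hf
      rw [mem_filter, mem_filter] at hf
      rw [mem_filter]
      exact ⟨mem_univ _, hf.1.2.1, hf.2⟩
    simp only [mem_insert, mem_singleton] at hp
    rcases hp with h | h | h | h | h | h <;> subst h
    · exact hsub a b c
    · refine (hsub a c b).trans (le_of_eq ?_)
      rw [cod_comm a c, cod_comm c b, cod_comm b a]; ring
    · refine (hsub b a c).trans (le_of_eq ?_)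
      rw [cod_comm b a, cod_comm a c, cod_comm c b]; ring
    · refine (hsub b c a).trans (le_of_eq ?_)
      ring
    · refine (hsub c a b).trans (le_of_eq ?_)
      ring
    · refine (hsub c b a).trans (le_of_eq ?_)
      rw [cod_comm c b, cod_comm b a, cod_comm a c]; ring

/-- product of the three codegrees of a triple, and zero for other sets -/
noncomputable def fib (G : SimpleGraph V) [DecidableRel G.Adj] (T : Finset V) : ℕ :=
  (univ.filter fun f : Fin 6 → V => IsHex G f ∧ ({f 0, f 2, f 4} : Finset V) = T).card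

lemma high_triple_zero : (univ.filter fun f : Fin 6 → V => IsHex G f ∧
    (High G (f 0) (f 2) ∧ High G (f 2) (f 4) ∧ High G (f 4) (f 0))).card ≤
      ∑ T ∈ Tri G, fib G T := by
  classical
  have := card_eq_sum_card_fiberwise
    (s := univ.filter fun f : Fin 6 → V => IsHex G f ∧
      (High G (f 0) (f 2) ∧ High G (f 2) (f 4) ∧ High G (f 4) (f 0)))
    (t := Tri G) (f := fun f => ({f 0, f 2, f 4} : Finset V)) ?_
  · rw [this]
    refine sum_le_sum fun T _ => ?_
    unfold fib
    refine card_le_card fun f hf => ?_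
    rw [mem_filter, mem_filter] at hf
    rw [mem_filter]
    exact ⟨mem_univ _, hf.1.2.1, hf.2⟩
  · intro f hf
    rw [mem_coe, mem_filter] at hf
    obtain ⟨_, h1, h2, h3, h4⟩ := hf
    rw [mem_coe]
    unfold Tri
    rw [mem_filter]
    refine ⟨mem_univ _, ?_, ?_⟩
    · rw [card_eq_three]
      exact ⟨_, _, _, h1.1.ne (by decide), h1.1.ne (by decide), h1.1.ne (by decide), rfl⟩
    · intro x hx y hy hxy
      simp only [mem_insert, mem_singleton] at hx hy
      rcases hx with rfl | rfl | rfl <;> rcases hy with rfl | rfl | rfl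
      · exact absurd rfl hxy
      · exact h2
      · exact h4.symm
      · exact h2.symm
      · exact absurd rfl hxy
      · exact h3
      · exact h4
      · exact h3.symm
      · exact absurd rfl hxy

/-- every hexagon of a graph without eight-cycle is counted -/
lemma hexCount_le (hG : NoC8 G) :
    hexCount G ≤ 2 * ∑ T ∈ Tri G, fib G T + 150 * (∑ v, G.degree v) ^ 2 := by
  classical
  unfold hexCount
  have hsub : (univ.filter fun f : Fin 6 → V => IsHex G f) ⊆
      ((univ.filter fun f : Fin 6 → V => IsHex G f ∧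
        (High G (f 0) (f 2) ∧ High G (f 2) (f 4) ∧ High G (f 4) (f 0))) ∪
      (univ.filter fun f : Fin 6 → V => IsHex G f ∧
        (High G (f 1) (f 3) ∧ High G (f 3) (f 5) ∧ High G (f 5) (f 1)))) ∪
      (univ : Finset (Fin 6)).biUnion fun i => univ.filter fun f : Fin 6 → V => IsHex G f ∧
        (¬ High G (f i) (f (i + 2)) ∧ ¬ High G (f (i + 3)) (f (i + 5))) := by
    intro f hf
    rw [mem_filter] at hf
    rw [mem_union, mem_union, mem_biUnion]
    rcases hex_cases hG hf.2 with h | h | ⟨i, h⟩
    · exact Or.inl (Or.inl (mem_filter.2 ⟨mem_univ _, hf.2, h⟩))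
    · exact Or.inl (Or.inr (mem_filter.2 ⟨mem_univ _, hf.2, h⟩))
    · exact Or.inr ⟨i, mem_univ _, mem_filter.2 ⟨mem_univ _, hf.2, h⟩⟩
  have h1 := high_triple_zero (G := G)
  have h2 : (univ.filter fun f : Fin 6 → V => IsHex G f ∧
        (High G (f 1) (f 3) ∧ High G (f 3) (f 5) ∧ High G (f 5) (f 1))).card ≤
      ∑ T ∈ Tri G, fib G T := by
    refine le_trans ?_ h1
    have := card_rot (G := G) (fun f : Fin 6 → V => High G (f 0) (f 2) ∧ High G (f 2) (f 4) ∧
      High G (f 4) (f 0)) 1
    exact this
  have h3 : ∀ i : Fin 6, (univ.filter fun f : Fin 6 → V => IsHex G f ∧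
        (¬ High G (f i) (f (i + 2)) ∧ ¬ High G (f (i + 3)) (f (i + 5)))).card ≤
      25 * (∑ v, G.degree v) ^ 2 := by
    intro i
    refine le_trans ?_ (opp_low_zero (G := G))
    have := card_rot (G := G) (fun f : Fin 6 → V => ¬ High G (f 0) (f 2) ∧
      ¬ High G (f 3) (f 5)) i
    simpa [add_comm] using this
  calc _ ≤ _ := card_le_card hsub
    _ ≤ _ := card_union_le _ _
    _ ≤ (∑ T ∈ Tri G, fib G T + ∑ T ∈ Tri G, fib G T) +
        ∑ i : Fin 6, 25 * (∑ v, G.degree v) ^ 2 := by
        refine add_le_add ((card_union_le _ _).trans (add_le_add h1 h2)) ?_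
        exact card_biUnion_le.trans (sum_le_sum fun i _ => h3 i)
    _ = _ := by
        rw [sum_const, card_univ, Fintype.card_fin, smul_eq_mul]
        ring

end Pool.Agent.Helper92.HX
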