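import Mathlib

namespace Pool.Agent.Helper92.HX

open Finset

/-- no cycle on eight vertices -/
def NoC8 {V : Type*} (G : SimpleGraph V) : Prop :=
  ∀ a b c d e f g h : V, [a, b, c, d, e, f, g, h].Nodup →
    G.Adj a b → G.Adj b c → G.Adj c d → G.Adj d e → G.Adj e f → G.Adj f g → G.Adj g h →
    G.Adj h a → False

/-- a labelled hexagon -/
def IsHex {V : Type*} (G : SimpleGraph V) (f : Fin 6 → V) : Prop :=
  Function.Injective f ∧ ∀ i, G.Adj (f i) (f (i + 1))

section

variable {V : Type*} [Fintype V] [DecidableEq V] (G : SimpleGraph V) [DecidableRel G.Adj]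

instance (f : Fin 6 → V) : Decidable (IsHex G f) := by
  unfold IsHex; infer_instance

/-- number of labelled hexagons -/
def hexCount : ℕ := (univ.filter fun f : Fin 6 → V => IsHex G f).card

/-- codegree -/
def cod (a b : V) : ℕ := (G.neighborFinset a ∩ G.neighborFinset b).card

/-- high pairs: codegree at least six -/
def High (a b : V) : Prop := a ≠ b ∧ 6 ≤ cod G a b

instance (a b : V) : Decidable (High G a b) := by
  unfold High; infer_instance

end

/-- the extremal graph: the three vertices of `T` are joined to everything, and there is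
one more edge `uv` -/
def Gam {V : Type*} (T : Finset V) (u v : V) : SimpleGraph V where
  Adj x y := x ≠ y ∧ (x ∈ T ∨ y ∈ T ∨ (x = u ∧ y = v) ∨ (x = v ∧ y = u))
  symm := ⟨fun x y h => ⟨h.1.symm, by tauto⟩⟩
  loopless := ⟨fun x h => h.1 rfl⟩

instance {V : Type*} [DecidableEq V] (T : Finset V) (u v : V) :
    DecidableRel (Gam T u v).Adj := by
  intro x y
  unfold Gam
  infer_instance

end Pool.Agent.Helper92.HX
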