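import Pool.Agent.Helper92.HX.Gamma

namespace Pool.Agent.Helper92.HX

open Finset

variable {V : Type*} [Fintype V] [DecidableEq V]

/-- hexagons with given hub pattern -/
def NN (T : Finset V) (u v : V) (q : Fin 6 → Bool) : ℕ :=
  (univ.filter fun f : Fin 6 → V => IsHex (Gam T u v) f ∧ ∀ i, decide (f i ∈ T) = q i).card

lemma hexCount_sum (T : Finset V) (u v : V) :
    hexCount (Gam T u v) = ∑ q : Fin 6 → Bool, NN T u v q := by
  unfold hexCount
  rw [card_eq_sum_card_fiberwise (f := fun (f : Fin 6 → V) i => decide (f i ∈ T))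
    (t := univ) (by intro f _; simp)]
  refine sum_congr rfl fun q _ => ?_
  unfold NN
  congr 1
  ext f
  simp only [mem_filter, mem_univ, true_and, funext_iff]

lemma NN_rot (T : Finset V) (u v : V) {q q' : Fin 6 → Bool} (i : Fin 6)
    (h : ∀ k, q (k + i) = q' k) : NN T u v q = NN T u v q' := by
  refine le_antisymm ?_ ?_
  · refine le_trans ?_ (card_rot (G := Gam T u v) (fun f => ∀ k, decide (f k ∈ T) = q' k) i)
    unfold NN
    refine card_le_card fun f hf => ?_
    rw [mem_filter] at hf ⊢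
    exact ⟨mem_univ _, hf.2.1, fun k => (hf.2.2 _).trans (h k)⟩
  · refine le_trans ?_ (card_rot (G := Gam T u v) (fun f => ∀ k, decide (f k ∈ T) = q k) (- i))
    unfold NN
    refine card_le_card fun f hf => ?_
    rw [mem_filter] at hf ⊢
    refine ⟨mem_univ _, hf.2.1, fun k => (hf.2.2 _).trans ?_⟩
    rw [← h]
    congr 1
    abel

lemma NN_refl (T : Finset V) (u v : V) {q q' : Fin 6 → Bool}
    (h : ∀ k, q (- k) = q' k) : NN T u v q = NN T u v q' := by
  refine le_antisymm ?_ ?_
  · refine le_trans ?_ (card_refl (G := Gam T u v) (fun f => ∀ k, decide (f k ∈ T) = q' k))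
    unfold NN
    refine card_le_card fun f hf => ?_
    rw [mem_filter] at hf ⊢
    exact ⟨mem_univ _, hf.2.1, fun k => (hf.2.2 _).trans (h k)⟩
  · refine le_trans ?_ (card_refl (G := Gam T u v) (fun f => ∀ k, decide (f k ∈ T) = q k))
    unfold NN
    refine card_le_card fun f hf => ?_
    rw [mem_filter] at hf ⊢
    refine ⟨mem_univ _, hf.2.1, fun k => (hf.2.2 _).trans ?_⟩
    rw [← h, neg_neg]

lemma NN_O0 (T : Finset V) (u v : V) {q : Fin 6 → Bool} (h : O0 q) :
    NN T u v q = NN T u v q0 := by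
  obtain ⟨i, hi⟩ := h
  exact NN_rot T u v i hi

lemma NN_O1 (T : Finset V) (u v : V) {q : Fin 6 → Bool} (h : O1 q) :
    NN T u v q = NN T u v q1 := by
  obtain ⟨i, hi | hi⟩ := h
  · exact NN_rot T u v i hi
  · rw [NN_rot T u v (q' := fun k => q (k + i)) i (fun k => rfl)]
    exact NN_refl T u v hi

lemma NN_zero (T : Finset V) (hT : T.card = 3) (u v : V) {q : Fin 6 → Bool} (h0 : ¬ O0 q)
    (h1 : ¬ O1 q) : NN T u v q = 0 := by
  unfold NN
  rw [card_eq_zero, filter_eq_empty_iff]
  rintro f _ ⟨hf, hq⟩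
  have h2 := pat6 q ?_ ?_
  · tauto
  · have : (univ.filter fun i => q i = true) = (univ.filter fun i => f i ∈ T) := by
      ext i
      simp only [mem_filter, mem_univ, true_and, ← hq, decide_eq_true_eq]
    rw [this]
    exact (card_pat_hub T f hf.1).trans hT.le
  · intro i j hij hc
    simp only [← hq, decide_eq_false_iff_not] at hc
    exact hij (gam_two (by decide) f hf.1 hf.2 i j hc.1.1 hc.1.2 hc.2.1 hc.2.2)

lemma hexCount_orbits (T : Finset V) (hT : T.card = 3) (u v : V) :
    hexCount (Gam T u v) = 2 * NN T u v q0 + 12 * NN T u v q1 := by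
  rw [hexCount_sum]
  have h : ∀ q : Fin 6 → Bool, NN T u v q = (if O0 q then NN T u v q0 else 0) +
      (if O1 q then NN T u v q1 else 0) := by
    intro q
    by_cases h0 : O0 q
    · rw [if_pos h0, if_neg (O01 q h0), NN_O0 T u v h0, add_zero]
    · by_cases h1 : O1 q
      · rw [if_neg h0, if_pos h1, NN_O1 T u v h1, zero_add]
      · rw [if_neg h0, if_neg h1, NN_zero T hT u v h0 h1]
  rw [sum_congr rfl fun q _ => h q, sum_add_distrib, ← sum_filter, ← sum_filter, sum_const,
    sum_const, card_O0, card_O1, smul_eq_mul, smul_eq_mul]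

lemma NN_q0 (T : Finset V) (hT : T.card = 3) (u v : V) :
    NN T u v q0 = 6 * ((Fintype.card V - 3) * (Fintype.card V - 4) * (Fintype.card V - 5)) := by
  classical
  have hcard : Fintype.card ((Fin 3 ↪ {x // x ∈ T}) × (Fin 3 ↪ {x // x ∈ Tᶜ})) =
      6 * ((Fintype.card V - 3) * (Fintype.card V - 4) * (Fintype.card V - 5)) := by
    rw [Fintype.card_prod, Fintype.card_embedding_eq, Fintype.card_embedding_eq,
      Fintype.card_coe, Fintype.card_coe, card_compl, hT, Fintype.card_fin]
    have e1 : Nat.descFactorial 3 3 = 6 := by decide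
    have e2 : ∀ m : ℕ, m.descFactorial 3 = (m - 2) * ((m - 1) * m) := by
      intro m; simp [Nat.descFactorial]
    rw [e1, e2]
    have e3 : Fintype.card V - 3 - 2 = Fintype.card V - 5 := by omega
    have e4 : Fintype.card V - 3 - 1 = Fintype.card V - 4 := by omega
    rw [e3, e4]
    ring
  rw [← hcard, ← card_univ]
  unfold NN
  symm
  refine card_bij (fun p _ => ![(p.2 0 : V), (p.1 0 : V), (p.2 1 : V), (p.1 1 : V), (p.2 2 : V),
    (p.1 2 : V)]) ?_ ?_ ?_
  · rintro ⟨g, h⟩ _
    rw [mem_filter]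
    have hg : ∀ i, (g i : V) ∈ T := fun i => (g i).2
    have hh : ∀ i, (h i : V) ∉ T := fun i => mem_compl.1 (h i).2
    have gg : ∀ i j, i ≠ j → (g i : V) ≠ g j := fun i j hij e => hij (g.injective (Subtype.ext e))
    have hhh : ∀ i j, i ≠ j → (h i : V) ≠ h j :=
      fun i j hij e => hij (h.injective (Subtype.ext e))
    have gh : ∀ i j, (g i : V) ≠ h j := fun i j e => hh j (e ▸ hg i)
    refine ⟨mem_univ _, ⟨?_, ?_⟩, ?_⟩
    · have hnd : [(h 0 : V), (g 0 : V), (h 1 : V), (g 1 : V), (h 2 : V), (g 2 : V)].Nodup := by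
        simp only [List.nodup_cons, List.mem_cons, List.not_mem_nil, or_false, not_or,
          not_false_eq_true, List.nodup_nil, and_true]
        exact ⟨⟨(gh _ _).symm, hhh _ _ (by decide), (gh _ _).symm, hhh _ _ (by decide),
          (gh _ _).symm⟩, ⟨gh _ _, gg _ _ (by decide), gh _ _, gg _ _ (by decide)⟩,
          ⟨(gh _ _).symm, hhh _ _ (by decide), (gh _ _).symm⟩, ⟨gh _ _, gg _ _ (by decide)⟩,
          (gh _ _).symm⟩
      have e : List.ofFn ![(h 0 : V), (g 0 : V), (h 1 : V), (g 1 : V), (h 2 : V), (g 2 : V)] =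
        [(h 0 : V), (g 0 : V), (h 1 : V), (g 1 : V), (h 2 : V), (g 2 : V)] := by
        simp [List.ofFn_succ]
      rw [← e] at hnd
      exact List.nodup_ofFn.1 hnd
    · intro i
      fin_cases i
      · exact ⟨(gh 0 0).symm, Or.inr (Or.inl (hg 0))⟩
      · exact ⟨gh 0 1, Or.inl (hg 0)⟩
      · exact ⟨(gh 1 1).symm, Or.inr (Or.inl (hg 1))⟩
      · exact ⟨gh 1 2, Or.inl (hg 1)⟩
      · exact ⟨(gh 2 2).symm, Or.inr (Or.inl (hg 2))⟩
      · exact ⟨gh 2 0, Or.inl (hg 2)⟩
    · intro i
      fin_cases i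
      · exact decide_eq_false (hh 0)
      · exact decide_eq_true (hg 0)
      · exact decide_eq_false (hh 1)
      · exact decide_eq_true (hg 1)
      · exact decide_eq_false (hh 2)
      · exact decide_eq_true (hg 2)
  · rintro ⟨g, h⟩ _ ⟨g', h'⟩ _ he
    have k := fun i : Fin 6 => congrFun he i
    refine Prod.ext (DFunLike.ext _ _ fun i => ?_) (DFunLike.ext _ _ fun i => ?_)
    · fin_cases i
      · exact Subtype.ext (k 1)
      · exact Subtype.ext (k 3)
      · exact Subtype.ext (k 5)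
    · fin_cases i
      · exact Subtype.ext (k 0)
      · exact Subtype.ext (k 2)
      · exact Subtype.ext (k 4)
  · intro f hf
    rw [mem_filter] at hf
    obtain ⟨_, ⟨hinj, -⟩, hp⟩ := hf
    have t1 : f 1 ∈ T := of_decide_eq_true (hp 1)
    have t3 : f 3 ∈ T := of_decide_eq_true (hp 3)
    have t5 : f 5 ∈ T := of_decide_eq_true (hp 5)
    have t0 : f 0 ∈ Tᶜ := mem_compl.2 (of_decide_eq_false (hp 0))
    have t2 : f 2 ∈ Tᶜ := mem_compl.2 (of_decide_eq_false (hp 2))
    have t4 : f 4 ∈ Tᶜ := mem_compl.2 (of_decide_eq_false (hp 4))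
    refine ⟨(⟨![⟨f 1, t1⟩, ⟨f 3, t3⟩, ⟨f 5, t5⟩], ?_⟩, ⟨![⟨f 0, t0⟩, ⟨f 2, t2⟩, ⟨f 4, t4⟩], ?_⟩),
      mem_univ _, ?_⟩
    · intro i j hij
      fin_cases i <;> fin_cases j <;> first
        | rfl
        | (have := hinj (Subtype.ext_iff.1 hij); exact absurd this (by decide))
    · intro i j hij
      fin_cases i <;> fin_cases j <;> first
        | rfl
        | (have := hinj (Subtype.ext_iff.1 hij); exact absurd this (by decide))
    · funext i
      fin_cases i <;> rfl

lemma NN_q1 (T : Finset V) (hT : T.card = 3) (u v : V) (hu : u ∉ T) (hv : v ∉ T) (huv : u ≠ v) :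
    NN T u v q1 = 12 * (Fintype.card V - 5) := by
  classical
  have h5 : (insert u (insert v T)).card = 5 := by
    rw [card_insert_of_notMem, card_insert_of_notMem hv, hT]
    simp [huv, hu]
  have hcard : Fintype.card ((Fin 3 ↪ {x // x ∈ T}) × Bool ×
      {x // x ∈ (insert u (insert v T))ᶜ}) = 12 * (Fintype.card V - 5) := by
    rw [Fintype.card_prod, Fintype.card_embedding_eq, Fintype.card_prod,
      Fintype.card_coe, Fintype.card_coe, card_compl, hT, h5, Fintype.card_fin,
      Fintype.card_bool]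
    have e1 : Nat.descFactorial 3 3 = 6 := by decide
    rw [e1]
    ring
  rw [← hcard, ← card_univ]
  unfold NN
  symm
  refine card_bij (fun p _ => ![(p.2.2 : V), (p.1 0 : V), (p.1 1 : V),
    (bif p.2.1 then u else v), (bif p.2.1 then v else u), (p.1 2 : V)]) ?_ ?_ ?_
  · rintro ⟨g, b, w⟩ _
    rw [mem_filter]
    have hg : ∀ i, (g i : V) ∈ T := fun i => (g i).2
    have gg : ∀ i j, i ≠ j → (g i : V) ≠ g j := fun i j hij e => hij (g.injective (Subtype.ext e))
    have hw := mem_compl.1 w.2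
    simp only [mem_insert, not_or] at hw
    obtain ⟨wu, wv, wT⟩ := hw
    have gn : ∀ i, ∀ x, x ∉ T → (g i : V) ≠ x := fun i x hx e => hx (e ▸ hg i)
    obtain ⟨x, y, hx, hy, hxy, wx, wy, ex, ey, hor⟩ : ∃ x y : V, x ∉ T ∧ y ∉ T ∧ x ≠ y ∧
        (w : V) ≠ x ∧ (w : V) ≠ y ∧ (bif b then u else v) = x ∧ (bif b then v else u) = y ∧
        ((x = u ∧ y = v) ∨ (x = v ∧ y = u)) := by
      cases b
      · exact ⟨v, u, hv, hu, huv.symm, wv, wu, rfl, rfl, Or.inr ⟨rfl, rfl⟩⟩
      · exact ⟨u, v, hu, hv, huv, wu, wv, rfl, rfl, Or.inl ⟨rfl, rfl⟩⟩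
    rw [ex, ey]
    refine ⟨mem_univ _, ⟨?_, ?_⟩, ?_⟩
    · have hnd : [(w : V), (g 0 : V), (g 1 : V), x, y, (g 2 : V)].Nodup := by
        simp only [List.nodup_cons, List.mem_cons, List.not_mem_nil, or_false, not_or,
          not_false_eq_true, List.nodup_nil, and_true]
        exact ⟨⟨(gn 0 _ wT).symm, (gn 1 _ wT).symm, wx, wy, (gn 2 _ wT).symm⟩,
          ⟨gg _ _ (by decide), gn 0 _ hx, gn 0 _ hy, gg _ _ (by decide)⟩,
          ⟨gn 1 _ hx, gn 1 _ hy, gg _ _ (by decide)⟩, ⟨hxy, (gn 2 _ hx).symm⟩,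
          (gn 2 _ hy).symm⟩
      have e : List.ofFn ![(w : V), (g 0 : V), (g 1 : V), x, y, (g 2 : V)] =
        [(w : V), (g 0 : V), (g 1 : V), x, y, (g 2 : V)] := by
        simp [List.ofFn_succ]
      rw [← e] at hnd
      exact List.nodup_ofFn.1 hnd
    · intro i
      fin_cases i
      · exact ⟨(gn 0 _ wT).symm, Or.inr (Or.inl (hg 0))⟩
      · exact ⟨gg 0 1 (by decide), Or.inl (hg 0)⟩
      · exact ⟨gn 1 _ hx, Or.inl (hg 1)⟩
      · exact ⟨hxy, Or.inr (Or.inr hor)⟩
      · exact ⟨(gn 2 _ hy).symm, Or.inr (Or.inl (hg 2))⟩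
      · exact ⟨gn 2 _ wT, Or.inl (hg 2)⟩
    · intro i
      fin_cases i
      · exact decide_eq_false wT
      · exact decide_eq_true (hg 0)
      · exact decide_eq_true (hg 1)
      · exact decide_eq_false hx
      · exact decide_eq_false hy
      · exact decide_eq_true (hg 2)
  · rintro ⟨g, b, w⟩ _ ⟨g', b', w'⟩ _ he
    have k := fun i : Fin 6 => congrFun he i
    refine Prod.ext (DFunLike.ext _ _ fun i => ?_) (Prod.ext ?_ (Subtype.ext (k 0)))
    · fin_cases i
      · exact Subtype.ext (k 1)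
      · exact Subtype.ext (k 2)
      · exact Subtype.ext (k 5)
    · have k3 : (bif b then u else v) = (bif b' then u else v) := k 3
      cases b <;> cases b' <;> simp only [cond_true, cond_false] at k3 ⊢
      · exact absurd k3.symm huv
      · exact absurd k3 huv
  · intro f hf
    rw [mem_filter] at hf
    obtain ⟨_, ⟨hinj, hadj⟩, hp⟩ := hf
    have t1 : f 1 ∈ T := of_decide_eq_true (hp 1)
    have t2 : f 2 ∈ T := of_decide_eq_true (hp 2)
    have t5 : f 5 ∈ T := of_decide_eq_true (hp 5)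
    have t0 : f 0 ∉ T := of_decide_eq_false (hp 0)
    have t3 : f 3 ∉ T := of_decide_eq_false (hp 3)
    have t4 : f 4 ∉ T := of_decide_eq_false (hp 4)
    have h34 := gam_off (hadj 3) t3 t4
    have ne : ∀ a b : Fin 6, a ≠ b → f a ≠ f b := fun a b hab => hinj.ne hab
    have t0' : f 0 ∈ (insert u (insert v T))ᶜ := by
      rw [mem_compl]
      simp only [mem_insert, not_or]
      rcases h34 with ⟨a, b⟩ | ⟨a, b⟩
      · exact ⟨a ▸ ne 0 3 (by decide), (show f 4 = v from b) ▸ ne 0 4 (by decide), t0⟩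
      · exact ⟨(show f 4 = u from b) ▸ ne 0 4 (by decide), a ▸ ne 0 3 (by decide), t0⟩
    refine ⟨(⟨![⟨f 1, t1⟩, ⟨f 2, t2⟩, ⟨f 5, t5⟩], ?_⟩, decide (f 3 = u), ⟨f 0, t0'⟩),
      mem_univ _, ?_⟩
    · intro i j hij
      fin_cases i <;> fin_cases j <;> first
        | rfl
        | (have := hinj (Subtype.ext_iff.1 hij); exact absurd this (by decide))
    · rcases h34 with ⟨a, b⟩ | ⟨a, b⟩
      · have a' : decide (f 3 = u) = true := decide_eq_true a
        funext i
        fin_cases i
        · rfl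
        · rfl
        · rfl
        · show (bif decide (f 3 = u) then u else v) = f 3
          rw [a', a]; rfl
        · show (bif decide (f 3 = u) then v else u) = f 4
          rw [a']; exact b.symm
        · rfl
      · have a' : decide (f 3 = u) = false := decide_eq_false (by rw [a]; exact huv.symm)
        funext i
        fin_cases i
        · rfl
        · rfl
        · rfl
        · show (bif decide (f 3 = u) then u else v) = f 3
          rw [a', a]; rfl
        · show (bif decide (f 3 = u) then v else u) = f 4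
          rw [a']; exact b.symm
        · rfl

/-- exact number of labelled hexagons of the extremal graph -/
theorem gam_hexCount (T : Finset V) (hT : T.card = 3) (u v : V) (hu : u ∉ T) (hv : v ∉ T)
    (huv : u ≠ v) : hexCount (Gam T u v) =
      12 * ((Fintype.card V - 5) * ((Fintype.card V - 3) * (Fintype.card V - 4) + 12)) := by
  rw [hexCount_orbits T hT u v, NN_q0 T hT u v, NN_q1 T hT u v hu hv huv]
  ring

end Pool.Agent.Helper92.HX
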