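import Pool.Agent.Helper92.HX.Sub
import Pool.Agent.Helper92.HX.GammaCount

namespace Pool.Agent.Helper92.HX

open Finset

variable {V : Type*} [Fintype V] [DecidableEq V] {G : SimpleGraph V} [DecidableRel G.Adj]

lemma count_A (hG : NoC8 G) {T : Finset V} (hT : T.card = 3) (hM : 8 ≤ (CM G T).card) :
    (univ.filter fun f : Fin 6 → V => IsHex G f ∧ ∀ i, f i ∈ CM G T ∪ T).card ≤
      12 * (((CM G T).card - 2) * ((CM G T).card * ((CM G T).card - 1) + 12)) := by
  classical
  obtain ⟨u, hu, v, hv, huv, hadj⟩ := exists_gam hG hT hM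
  set S := CM G T ∪ T with hS
  have uS : u ∈ S := by rw [hS, mem_union]; exact Or.inl hu
  have vS : v ∈ S := by rw [hS, mem_union]; exact Or.inl hv
  have hSc : S.card = (CM G T).card + 3 := by
    rw [hS, card_union_of_disjoint, hT]
    rw [disjoint_left]
    intro x hx hx'
    exact CM_notMem hx hx'
  refine (count_sub (G := G) S).trans ?_
  set T' : Finset {x // x ∈ S} := T.subtype (fun x => x ∈ S) with hT'
  have hT'c : T'.card = 3 := by
    rw [hT', card_subtype, filter_true_of_mem, hT]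
    intro x hx
    rw [hS, mem_union]
    exact Or.inr hx
  have h1 : hexCount (G.comap (Subtype.val : {x // x ∈ S} → V)) ≤
      hexCount (Gam T' (⟨u, uS⟩ : {x // x ∈ S}) ⟨v, vS⟩) := by
    refine hexCount_mono ?_
    intro x y hxy
    have h := hadj x.1 x.2 y.1 y.2 hxy
    refine ⟨fun e => h.1 (congrArg _ e), ?_⟩
    rcases h.2 with h | h | h | h
    · exact Or.inl (mem_subtype.2 h)
    · exact Or.inr (Or.inl (mem_subtype.2 h))
    · exact Or.inr (Or.inr (Or.inl ⟨Subtype.ext h.1, Subtype.ext h.2⟩))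
    · exact Or.inr (Or.inr (Or.inr ⟨Subtype.ext h.1, Subtype.ext h.2⟩))
  refine h1.trans (le_of_eq ?_)
  rw [gam_hexCount T' hT'c ⟨u, uS⟩ ⟨v, vS⟩ (fun h => CM_notMem hu (mem_subtype.1 h))
    (fun h => CM_notMem hv (mem_subtype.1 h)) (fun h => huv (Subtype.ext_iff.1 h)),
    Fintype.card_coe, hSc]
  have e1 : (CM G T).card + 3 - 5 = (CM G T).card - 2 := by omega
  have e2 : (CM G T).card + 3 - 3 = (CM G T).card := by omega
  have e3 : (CM G T).card + 3 - 4 = (CM G T).card - 1 := by omega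
  rw [e1, e2, e3]

/-- all hexagons in terms of the number of remaining vertices -/
lemma hexCount_local (hG : NoC8 G) {T : Finset V} (hT : T.card = 3) (hM : 8 ≤ (CM G T).card) :
    (hexCount G : ℝ) ≤ 12 * ((((CM G T).card : ℝ) - 2) * (((CM G T).card : ℝ) *
      (((CM G T).card : ℝ) - 1) + 12)) +
      12 * ((RM G T).card : ℝ) * (Fintype.card V : ℝ) ^ 2 +
      648 * (Fintype.card V : ℝ) * (((RM G T).card : ℝ) * (((RM G T).card : ℝ) + 1)) +
      44676 * (2 * ((RM G T).card : ℝ) + 5) ^ 3 := by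
  classical
  have hsub : (univ.filter fun f : Fin 6 → V => IsHex G f) ⊆
      (univ.filter fun f : Fin 6 → V => IsHex G f ∧ ∀ i, f i ∈ CM G T ∪ T) ∪
      (((univ : Finset (Fin 6)).biUnion fun i => univ.filter fun f : Fin 6 → V => IsHex G f ∧
        PA G T (fun k => f (k + i))) ∪
      (((univ : Finset (Fin 6)).biUnion fun j => univ.filter fun f : Fin 6 → V => IsHex G f ∧
        PB G T (fun k => f (k + j))) ∪
      (((univ : Finset (Fin 6)).biUnion fun j => univ.filter fun f : Fin 6 → V => IsHex G f ∧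
        PB G T (fun k => f (- k + j))) ∪
      (univ.filter fun f : Fin 6 → V => IsHex G f ∧ ∀ i, f i ∈ WS G T)))) := by
    intro f hf
    rw [mem_filter] at hf
    simp only [mem_union, mem_biUnion, mem_filter, mem_univ, true_and]
    rcases classify hG hT hM hf.2 with h | ⟨i, h⟩ | ⟨j, h⟩ | ⟨j, h⟩ | h
    · exact Or.inl ⟨hf.2, fun i => mem_union.1 (h i)⟩
    · exact Or.inr (Or.inl ⟨i, hf.2, h⟩)
    · exact Or.inr (Or.inr (Or.inl ⟨j, hf.2, h⟩))
    · exact Or.inr (Or.inr (Or.inr (Or.inl ⟨j, hf.2, h⟩)))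
    · exact Or.inr (Or.inr (Or.inr (Or.inr ⟨hf.2, h⟩)))
  have hPA := count_PA (G := G) hT
  have hPB := count_PB hG hT hM
  have c1 : ((univ : Finset (Fin 6)).biUnion fun i => univ.filter fun f : Fin 6 → V =>
      IsHex G f ∧ PA G T (fun k => f (k + i))).card ≤
      6 * (2 * (RM G T).card * (Fintype.card V) ^ 2) := by
    refine card_biUnion_le.trans ?_
    refine (sum_le_sum fun i _ => (card_rot (G := G) (PA G T) i).trans hPA).trans ?_
    rw [sum_const, card_univ, Fintype.card_fin, smul_eq_mul]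
  have c2 : ((univ : Finset (Fin 6)).biUnion fun j => univ.filter fun f : Fin 6 → V =>
      IsHex G f ∧ PB G T (fun k => f (k + j))).card ≤
      6 * (Fintype.card V * (27 * (2 * ((RM G T).card * ((RM G T).card + 1))))) := by
    refine card_biUnion_le.trans ?_
    refine (sum_le_sum fun i _ => (card_rot (G := G) (PB G T) i).trans hPB).trans ?_
    rw [sum_const, card_univ, Fintype.card_fin, smul_eq_mul]
  have c3 : ((univ : Finset (Fin 6)).biUnion fun j => univ.filter fun f : Fin 6 → V =>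
      IsHex G f ∧ PB G T (fun k => f (- k + j))).card ≤
      6 * (Fintype.card V * (27 * (2 * ((RM G T).card * ((RM G T).card + 1))))) := by
    refine card_biUnion_le.trans ?_
    refine (sum_le_sum fun i _ => (card_rot (G := G) (fun f => PB G T (fun k => f (- k))) i).trans
      ((card_refl (G := G) (PB G T)).trans hPB)).trans ?_
    rw [sum_const, card_univ, Fintype.card_fin, smul_eq_mul]
  have cA := count_A hG hT hM
  have cW := count_WS hG hT hM
  have hk : 2 ≤ (CM G T).card := by omega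
  have cA' : ((univ.filter fun f : Fin 6 → V => IsHex G f ∧ ∀ i, f i ∈ CM G T ∪ T).card : ℝ) ≤
      12 * ((((CM G T).card : ℝ) - 2) * (((CM G T).card : ℝ) *
      (((CM G T).card : ℝ) - 1) + 12)) := by
    have h : ((univ.filter fun f : Fin 6 → V => IsHex G f ∧ ∀ i, f i ∈ CM G T ∪ T).card : ℝ) ≤
      ((12 * (((CM G T).card - 2) * ((CM G T).card * ((CM G T).card - 1) + 12)) : ℕ) : ℝ) := by
      exact_mod_cast cA
    rw [Nat.cast_mul, Nat.cast_mul, Nat.cast_add, Nat.cast_mul, Nat.cast_sub hk,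
      Nat.cast_sub (by omega : 1 ≤ (CM G T).card)] at h
    exact_mod_cast h
  have htot := card_le_card hsub
  have u1 := card_union_le (univ.filter fun f : Fin 6 → V => IsHex G f ∧ ∀ i, f i ∈ CM G T ∪ T)
    (((univ : Finset (Fin 6)).biUnion fun i => univ.filter fun f : Fin 6 → V => IsHex G f ∧
        PA G T (fun k => f (k + i))) ∪
      (((univ : Finset (Fin 6)).biUnion fun j => univ.filter fun f : Fin 6 → V => IsHex G f ∧
        PB G T (fun k => f (k + j))) ∪
      (((univ : Finset (Fin 6)).biUnion fun j => univ.filter fun f : Fin 6 → V => IsHex G f ∧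
        PB G T (fun k => f (- k + j))) ∪
      (univ.filter fun f : Fin 6 → V => IsHex G f ∧ ∀ i, f i ∈ WS G T))))
  have u2 := card_union_le ((univ : Finset (Fin 6)).biUnion fun i => univ.filter
      fun f : Fin 6 → V => IsHex G f ∧ PA G T (fun k => f (k + i)))
      (((univ : Finset (Fin 6)).biUnion fun j => univ.filter fun f : Fin 6 → V => IsHex G f ∧
        PB G T (fun k => f (k + j))) ∪
      (((univ : Finset (Fin 6)).biUnion fun j => univ.filter fun f : Fin 6 → V => IsHex G f ∧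
        PB G T (fun k => f (- k + j))) ∪
      (univ.filter fun f : Fin 6 → V => IsHex G f ∧ ∀ i, f i ∈ WS G T)))
  have u3 := card_union_le ((univ : Finset (Fin 6)).biUnion fun j => univ.filter
      fun f : Fin 6 → V => IsHex G f ∧ PB G T (fun k => f (k + j)))
      (((univ : Finset (Fin 6)).biUnion fun j => univ.filter fun f : Fin 6 → V => IsHex G f ∧
        PB G T (fun k => f (- k + j))) ∪
      (univ.filter fun f : Fin 6 → V => IsHex G f ∧ ∀ i, f i ∈ WS G T))
  have u4 := card_union_le ((univ : Finset (Fin 6)).biUnion fun j => univ.filter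
      fun f : Fin 6 → V => IsHex G f ∧ PB G T (fun k => f (- k + j)))
      (univ.filter fun f : Fin 6 → V => IsHex G f ∧ ∀ i, f i ∈ WS G T)
  have hfin : hexCount G ≤
      (univ.filter fun f : Fin 6 → V => IsHex G f ∧ ∀ i, f i ∈ CM G T ∪ T).card +
      (6 * (2 * (RM G T).card * (Fintype.card V) ^ 2) +
      (6 * (Fintype.card V * (27 * (2 * ((RM G T).card * ((RM G T).card + 1))))) +
      (6 * (Fintype.card V * (27 * (2 * ((RM G T).card * ((RM G T).card + 1))))) +
      (univ.filter fun f : Fin 6 → V => IsHex G f ∧ ∀ i, f i ∈ WS G T).card))) := by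
    unfold hexCount
    omega
  have hfin' : (hexCount G : ℝ) ≤
      ((univ.filter fun f : Fin 6 → V => IsHex G f ∧ ∀ i, f i ∈ CM G T ∪ T).card : ℝ) +
      (6 * (2 * ((RM G T).card : ℝ) * (Fintype.card V : ℝ) ^ 2) +
      (6 * ((Fintype.card V : ℝ) * (27 * (2 * (((RM G T).card : ℝ) *
        (((RM G T).card : ℝ) + 1))))) +
      (6 * ((Fintype.card V : ℝ) * (27 * (2 * (((RM G T).card : ℝ) *
        (((RM G T).card : ℝ) + 1))))) +
      ((univ.filter fun f : Fin 6 → V => IsHex G f ∧ ∀ i, f i ∈ WS G T).card : ℝ)))) := by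
    exact_mod_cast hfin
  linarith

/-- the numerical inequality -/
lemma numeric {x m : ℝ} (hx : 1000000 ≤ x) (hm : 1 ≤ m) (hmx : m ≤ x / 5000) :
    12 * (((x - 3 - m) - 2) * ((x - 3 - m) * ((x - 3 - m) - 1) + 12)) + 12 * m * x ^ 2 +
      648 * x * (m * (m + 1)) + 44676 * (2 * m + 5) ^ 3 <
      12 * ((x - 5) * ((x - 3) * (x - 4) + 12)) := by
  have h1 : (2 * m + 5) ^ 3 ≤ 343 * m ^ 3 := by
    have : (2 * m + 5) ^ 3 ≤ (7 * m) ^ 3 := pow_le_pow_left₀ (by linarith) (by linarith) 3
    calc (2 * m + 5) ^ 3 ≤ (7 * m) ^ 3 := this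
      _ = 343 * m ^ 3 := by ring
  have h2 : m ^ 2 ≤ (x / 5000) ^ 2 := pow_le_pow_left₀ (by linarith) hmx 2
  have h3 : m * x ≤ x / 5000 * x := mul_le_mul_of_nonneg_right hmx (by linarith)
  have h4 : 648 * x * (m * (m + 1)) ≤ m * (1296 * (x / 5000 * x)) := by
    have : x * (m + 1) ≤ x * (2 * m) := mul_le_mul_of_nonneg_left (by linarith) (by linarith)
    nlinarith
  have h5 : 44676 * (2 * m + 5) ^ 3 ≤ m * (44676 * 343 * (x / 5000) ^ 2) := by
    have : m ^ 3 = m * m ^ 2 := by ring
    have h6 : m * m ^ 2 ≤ m * (x / 5000) ^ 2 := mul_le_mul_of_nonneg_left h2 (by linarith)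
    nlinarith
  have h7 : 12 * ((x - 5) * ((x - 3) * (x - 4) + 12)) -
      12 * (((x - 3 - m) - 2) * ((x - 3 - m) * ((x - 3 - m) - 1) + 12)) =
      m * (12 * (3 * (x - 3) ^ 2 - 3 * (x - 3) * m + m ^ 2 - 6 * (x - 3) + 3 * m + 14)) := by
    ring
  have h8 : 12 * x ^ 2 + 1296 * (x / 5000 * x) + 44676 * 343 * (x / 5000) ^ 2 <
      12 * (3 * (x - 3) ^ 2 - 3 * (x - 3) * m + m ^ 2 - 6 * (x - 3) + 3 * m + 14) := by
    have h9 : (x - 3) * m ≤ x / 5000 * x := by nlinarith
    nlinarith [sq_nonneg m]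
  have h10 := mul_lt_mul_of_pos_left h8 (by linarith : 0 < m)
  nlinarith

end Pool.Agent.Helper92.HX
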