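import Pool.Agent.Helper92.HX.Basic

namespace Pool.Agent.Helper92.HX

open Finset

variable {V : Type*} [Fintype V] [DecidableEq V]

/-- adjacency off the hubs -/
lemma gam_off {T : Finset V} {u v x y : V} (h : (Gam T u v).Adj x y) (hx : x ∉ T) (hy : y ∉ T) :
    (x = u ∧ y = v) ∨ (x = v ∧ y = u) := by
  rcases h.2 with h | h | h | h
  · exact absurd h hx
  · exact absurd h hy
  · exact Or.inl h
  · exact Or.inr h

lemma card_pat_hub {m : ℕ} (T : Finset V) (f : Fin m → V) (hf : Function.Injective f) :
    (univ.filter fun i => f i ∈ T).card ≤ T.card := by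
  refine card_le_card_of_injOn f ?_ hf.injOn
  intro i hi
  rw [mem_coe, mem_filter] at hi
  exact hi.2

lemma pat8 (p : Fin 8 → Bool) (h1 : (univ.filter fun i => p i = true).card ≤ 3)
    (h2 : ∀ i j, i ≠ j → ¬ ((p i = false ∧ p (i + 1) = false) ∧
      (p j = false ∧ p (j + 1) = false))) : False := by
  have h3 : (univ.filter fun i : Fin 8 => p i = false ∧ p (i + 1) = false).card ≤ 1 := by
    rw [card_le_one]
    intro i hi j hj
    rw [mem_filter] at hi hj
    by_contra hne
    exact h2 i j hne ⟨hi.2, hj.2⟩
  have h4 : (univ.filter fun i : Fin 8 => p i = false ∧ p (i + 1) = true).card ≤ 3 := by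
    refine le_trans ?_ h1
    refine card_le_card_of_injOn (fun i => i + 1) ?_ (add_left_injective 1).injOn
    intro i hi
    rw [mem_coe, mem_filter] at hi ⊢
    exact ⟨mem_univ _, hi.2.2⟩
  have h5 : (univ : Finset (Fin 8)) ⊆ ((univ.filter fun i => p i = true) ∪
      (univ.filter fun i : Fin 8 => p i = false ∧ p (i + 1) = false)) ∪
      (univ.filter fun i : Fin 8 => p i = false ∧ p (i + 1) = true) := by
    intro i _
    simp only [mem_union, mem_filter, mem_univ, true_and]
    cases h : p i <;> cases h' : p (i + 1) <;> simp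
  have h6 := card_le_card h5
  have h7 := card_union_le ((univ.filter fun i => p i = true) ∪
      (univ.filter fun i : Fin 8 => p i = false ∧ p (i + 1) = false))
      (univ.filter fun i : Fin 8 => p i = false ∧ p (i + 1) = true)
  have h8 := card_union_le (univ.filter fun i => p i = true)
      (univ.filter fun i : Fin 8 => p i = false ∧ p (i + 1) = false)
  rw [card_univ, Fintype.card_fin] at h6
  omega

/-- two edges off the hubs of an injective closed walk coincide -/
lemma gam_two {m : ℕ} [NeZero m] (hm : ∀ i j : Fin m, i = j + 1 → i + 1 = j → False)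
    {T : Finset V} {u v : V} (f : Fin m → V)
    (hf : Function.Injective f) (ha : ∀ i, (Gam T u v).Adj (f i) (f (i + 1))) (i j : Fin m)
    (h1 : f i ∉ T) (h2 : f (i + 1) ∉ T) (h3 : f j ∉ T) (h4 : f (j + 1) ∉ T) : i = j := by
  rcases gam_off (ha i) h1 h2 with ⟨a, b⟩ | ⟨a, b⟩
  · rcases gam_off (ha j) h3 h4 with ⟨c, d⟩ | ⟨c, d⟩
    · exact hf (a.trans c.symm)
    · exact (hm i j (hf (a.trans d.symm)) (hf (b.trans c.symm))).elim
  · rcases gam_off (ha j) h3 h4 with ⟨c, d⟩ | ⟨c, d⟩
    · exact (hm i j (hf (a.trans d.symm)) (hf (b.trans c.symm))).elim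
    · exact hf (a.trans c.symm)

/-- the extremal graph has no eight-cycle -/
theorem gam_noC8 (T : Finset V) (hT : T.card = 3) (u v : V) : NoC8 (Gam T u v) := by
  intro a b c d e f g h hnd h1 h2 h3 h4 h5 h6 h7 h8
  set x : Fin 8 → V := ![a, b, c, d, e, f, g, h] with hx
  have hinj : Function.Injective x := by
    have : List.ofFn x = [a, b, c, d, e, f, g, h] := by simp [hx, List.ofFn_succ]
    rw [← this] at hnd
    exact List.nodup_ofFn.1 hnd
  have hadj : ∀ i, (Gam T u v).Adj (x i) (x (i + 1)) := by
    intro i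
    fin_cases i
    · exact h1
    · exact h2
    · exact h3
    · exact h4
    · exact h5
    · exact h6
    · exact h7
    · exact h8
  refine pat8 (fun i => decide (x i ∈ T)) ?_ ?_
  · simp only [decide_eq_true_eq]
    exact (card_pat_hub T x hinj).trans hT.le
  · intro i j hij hc
    simp only [decide_eq_false_iff_not] at hc
    exact hij (gam_two (by decide) x hinj hadj i j hc.1.1 hc.1.2 hc.2.1 hc.2.2)

/-- base pattern of the first kind -/
def q0 : Fin 6 → Bool := ![false, true, false, true, false, true]

/-- base pattern of the second kind -/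
def q1 : Fin 6 → Bool := ![false, true, true, false, false, true]

/-- first orbit -/
def O0 (q : Fin 6 → Bool) : Prop := ∃ i : Fin 6, ∀ k, q (k + i) = q0 k

/-- second orbit -/
def O1 (q : Fin 6 → Bool) : Prop := ∃ i : Fin 6, (∀ k, q (k + i) = q1 k) ∨
  (∀ k, q (- k + i) = q1 k)

instance : DecidablePred O0 := fun q => by unfold O0; infer_instance
instance : DecidablePred O1 := fun q => by unfold O1; infer_instance

lemma pat6 (q : Fin 6 → Bool) (h1 : (univ.filter fun i => q i = true).card ≤ 3)
    (h2 : ∀ i j, i ≠ j → ¬ ((q i = false ∧ q (i + 1) = false) ∧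
      (q j = false ∧ q (j + 1) = false))) : O0 q ∨ O1 q := by
  revert q
  decide +kernel

lemma card_O0 : (univ.filter fun q : Fin 6 → Bool => O0 q).card = 2 := by decide +kernel

lemma card_O1 : (univ.filter fun q : Fin 6 → Bool => O1 q).card = 12 := by decide +kernel

lemma O01 (q : Fin 6 → Bool) (h : O0 q) : ¬ O1 q := by
  revert q
  decide +kernel

end Pool.Agent.Helper92.HX
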