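import Pool.Agent.Helper92.HX.Basic

namespace Pool.Agent.Helper92.HX

open Finset

variable {V : Type*} [Fintype V] [DecidableEq V] {G : SimpleGraph V} [DecidableRel G.Adj]

/-- common neighbours of the set `T` -/
def CM (G : SimpleGraph V) [DecidableRel G.Adj] (T : Finset V) : Finset V :=
  univ.filter fun v => ∀ h ∈ T, G.Adj h v

/-- remaining vertices -/
def RM (G : SimpleGraph V) [DecidableRel G.Adj] (T : Finset V) : Finset V :=
  univ.filter fun v => v ∉ T ∧ v ∉ CM G T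

lemma mem_CM {T : Finset V} {v : V} : v ∈ CM G T ↔ ∀ h ∈ T, G.Adj h v := by
  unfold CM; simp

lemma mem_RM {T : Finset V} {v : V} : v ∈ RM G T ↔ v ∉ T ∧ v ∉ CM G T := by
  unfold RM; simp

lemma CM_notMem {T : Finset V} {v : V} (hv : v ∈ CM G T) : v ∉ T :=
  fun h => (mem_CM.1 hv v h).ne rfl

lemma card_split {T : Finset V} (hT : T.card = 3) :
    (CM G T).card + (RM G T).card + 3 = Fintype.card V := by
  have h1 : Disjoint T (CM G T) := by
    rw [disjoint_left]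
    intro v hv hv'
    exact CM_notMem hv' hv
  have h2 : Disjoint (T ∪ CM G T) (RM G T) := by
    rw [disjoint_left]
    intro v hv hv'
    rw [mem_RM] at hv'
    rw [mem_union] at hv
    tauto
  have h3 : (T ∪ CM G T) ∪ RM G T = univ := by
    ext v
    simp only [mem_union, mem_RM, mem_univ, iff_true]
    tauto
  have h4 := card_union_of_disjoint h2
  rw [h3, card_union_of_disjoint h1, hT, card_univ] at h4
  omega

lemma pickM {T : Finset V} (hM : 8 ≤ (CM G T).card) (S : Finset V) (hS : S.card ≤ 7) :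
    ∃ w ∈ CM G T, w ∉ S := by
  by_contra hc
  push Not at hc
  have : CM G T ⊆ S := hc
  have := card_le_card this
  omega

/-- given one hub, the other two -/
lemma hubs_of_one {T : Finset V} (hT : T.card = 3) {a : V} (ha : a ∈ T) :
    ∃ b c, b ∈ T ∧ c ∈ T ∧ a ≠ b ∧ a ≠ c ∧ b ≠ c := by
  have h2 : (T.erase a).card = 2 := by rw [card_erase_of_mem ha, hT]
  obtain ⟨b, c, hbc, e⟩ := card_eq_two.1 h2
  have hb : b ∈ T.erase a := by rw [e]; simp
  have hc : c ∈ T.erase a := by rw [e]; simp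
  rw [mem_erase] at hb hc
  exact ⟨b, c, hb.2, hc.2, hb.1.symm, hc.1.symm, hbc⟩

lemma hubs_of_two {T : Finset V} (hT : T.card = 3) {a b : V} (ha : a ∈ T) (hb : b ∈ T)
    (hab : a ≠ b) : ∃ c ∈ T, c ≠ a ∧ c ≠ b := by
  have h2 : ((T.erase a).erase b).card = 1 := by
    rw [card_erase_of_mem (mem_erase.2 ⟨hab.symm, hb⟩), card_erase_of_mem ha, hT]
  obtain ⟨c, e⟩ := card_eq_one.1 h2
  have hc : c ∈ (T.erase a).erase b := by rw [e]; simp
  rw [mem_erase, mem_erase] at hc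
  exact ⟨c, hc.2.2, hc.2.1, hc.1⟩

/-- at most three hubs -/
lemma hubs_three {T : Finset V} (hT : T.card = 3) {a b c d : V} (ha : a ∈ T) (hb : b ∈ T)
    (hc : c ∈ T) (hd : d ∈ T) (hab : a ≠ b) (hac : a ≠ c) (hbc : b ≠ c) :
    d = a ∨ d = b ∨ d = c := by
  by_contra hcon
  push Not at hcon
  obtain ⟨h1, h2, h3⟩ := hcon
  have h : ({a, b, c, d} : Finset V) ⊆ T := by
    intro x hx
    simp only [mem_insert, mem_singleton] at hx
    rcases hx with rfl | rfl | rfl | rfl <;> assumption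
  have h4 : ({a, b, c, d} : Finset V).card = 4 := by
    rw [card_insert_of_notMem, card_insert_of_notMem, card_insert_of_notMem, card_singleton]
    · simp [h3.symm]
    · simp [hbc, h2.symm]
    · simp [hab, hac, h1.symm]
  have := card_le_card h
  omega

/-- no vertex off the hubs has two common neighbours of the hubs as neighbours -/
lemma F1 (hG : NoC8 G) {T : Finset V} (hT : T.card = 3) (hM : 8 ≤ (CM G T).card) {v u w : V}
    (hv : v ∉ T) (hu : u ∈ CM G T) (hw : w ∈ CM G T) (huv : G.Adj v u) (hwv : G.Adj v w) :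
    u = w := by
  by_contra hne
  obtain ⟨a, b, c, hab, hac, hbc, rfl⟩ := card_eq_three.1 hT
  obtain ⟨s, hs, hs'⟩ := pickM hM {u, w, v} (le_trans card_le_three (by norm_num))
  obtain ⟨t, ht, ht'⟩ := pickM hM {u, w, v, s} (le_trans card_le_four (by norm_num))
  have nu := CM_notMem hu
  have nw := CM_notMem hw
  have ns := CM_notMem hs
  have nt := CM_notMem ht
  rw [mem_CM] at hu hw hs ht
  simp only [mem_insert, mem_singleton, not_or, forall_eq_or_imp, forall_eq] at *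
  refine hG a u v w b s c t ?_ hu.1 huv.symm hwv hw.2.1.symm hs.2.1 hs.2.2.symm ht.2.2
    ht.1.symm
  have e1 := huv.ne
  have e2 := hwv.ne
  simp only [List.nodup_cons, List.mem_cons, List.not_mem_nil, or_false, not_or,
    not_false_eq_true, List.nodup_nil, and_true]
  obtain ⟨v1, v2, v3⟩ := hv
  obtain ⟨u1, u2, u3⟩ := nu
  obtain ⟨w1, w2, w3⟩ := nw
  obtain ⟨s1, s2, s3⟩ := ns
  obtain ⟨t1, t2, t3⟩ := nt
  obtain ⟨s4, s5, s6⟩ := hs'
  obtain ⟨t4, t5, t6, t7⟩ := ht'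
  exact ⟨⟨Ne.symm u1, Ne.symm v1, Ne.symm w1, hab, Ne.symm s1, hac, Ne.symm t1⟩,
    ⟨Ne.symm e1, hne, u2, Ne.symm s4, u3, Ne.symm t4⟩, ⟨e2, v2, Ne.symm s6, v3, Ne.symm t6⟩,
    ⟨w2, Ne.symm s5, w3, Ne.symm t5⟩, ⟨Ne.symm s2, hbc, Ne.symm t2⟩, ⟨s3, Ne.symm t7⟩,
    Ne.symm t3⟩

/-- no two disjoint edges among the common neighbours -/
lemma F2 (hG : NoC8 G) {T : Finset V} (hT : T.card = 3) (hM : 8 ≤ (CM G T).card)
    {u v p q : V} (hu : u ∈ CM G T) (hv : v ∈ CM G T) (hp : p ∈ CM G T) (hq : q ∈ CM G T)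
    (huv : G.Adj u v) (hpq : G.Adj p q) (h1 : u ≠ p) (h2 : u ≠ q) (h3 : v ≠ p) (h4 : v ≠ q) :
    False := by
  obtain ⟨a, b, c, hab, hac, hbc, rfl⟩ := card_eq_three.1 hT
  obtain ⟨t, ht, ht'⟩ := pickM hM {u, v, p, q} (le_trans card_le_four (by norm_num))
  have nu := CM_notMem hu
  have nv := CM_notMem hv
  have np := CM_notMem hp
  have nq := CM_notMem hq
  have nt := CM_notMem ht
  rw [mem_CM] at hu hv hp hq ht
  simp only [mem_insert, mem_singleton, not_or, forall_eq_or_imp, forall_eq] at *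
  refine hG a u v b p q c t ?_ hu.1 huv hv.2.1.symm hp.2.1 hpq hq.2.2.symm ht.2.2 ht.1.symm
  simp only [List.nodup_cons, List.mem_cons, List.not_mem_nil, or_false, not_or,
    not_false_eq_true, List.nodup_nil, and_true]
  obtain ⟨u1, u2, u3⟩ := nu
  obtain ⟨v1, v2, v3⟩ := nv
  obtain ⟨p1, p2, p3⟩ := np
  obtain ⟨q1, q2, q3⟩ := nq
  obtain ⟨t1, t2, t3⟩ := nt
  obtain ⟨t4, t5, t6, t7⟩ := ht'
  exact ⟨⟨Ne.symm u1, Ne.symm v1, hab, Ne.symm p1, Ne.symm q1, hac, Ne.symm t1⟩,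
    ⟨huv.ne, u2, h1, h2, u3, Ne.symm t4⟩, ⟨v2, h3, h4, v3, Ne.symm t5⟩,
    ⟨Ne.symm p2, Ne.symm q2, hbc, Ne.symm t2⟩, ⟨hpq.ne, p3, Ne.symm t6⟩, ⟨q3, Ne.symm t7⟩,
    Ne.symm t3⟩

/-- no path on three non-hubs between different hubs -/
lemma F4 (hG : NoC8 G) {T : Finset V} (hT : T.card = 3) (hM : 8 ≤ (CM G T).card)
    {h h' p q s : V} (hh : h ∈ T) (hh' : h' ∈ T) (hhh : h ≠ h') (hp : p ∉ T) (hq : q ∉ T)
    (hs : s ∉ T) (hps : p ≠ s) (a1 : G.Adj h p) (a2 : G.Adj p q) (a3 : G.Adj q s)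
    (a4 : G.Adj s h') : False := by
  obtain ⟨k, hk, k1, k2⟩ := hubs_of_two hT hh hh' hhh
  obtain ⟨t, ht, ht'⟩ := pickM hM {p, q, s} (le_trans card_le_three (by norm_num))
  obtain ⟨w, hw, hw'⟩ := pickM hM {p, q, s, t} (le_trans card_le_four (by norm_num))
  have nt := CM_notMem ht
  have nw := CM_notMem hw
  rw [mem_CM] at ht hw
  have ne : ∀ {x y : V}, x ∈ T → y ∉ T → x ≠ y := fun hx hy e => hy (e ▸ hx)
  simp only [mem_insert, mem_singleton, not_or] at ht' hw'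
  obtain ⟨t1, t2, t3⟩ := ht'
  obtain ⟨w1, w2, w3, w4⟩ := hw'
  refine hG h p q s h' t k w ?_ a1 a2 a3 a4 (ht h' hh') (ht k hk).symm (hw k hk)
    (hw h hh).symm
  simp only [List.nodup_cons, List.mem_cons, List.not_mem_nil, or_false, not_or,
    not_false_eq_true, List.nodup_nil, and_true]
  exact ⟨⟨ne hh hp, ne hh hq, ne hh hs, hhh, ne hh nt, k1.symm, ne hh nw⟩,
    ⟨a2.ne, hps, (ne hh' hp).symm, Ne.symm t1, (ne hk hp).symm, Ne.symm w1⟩,
    ⟨a3.ne, (ne hh' hq).symm, Ne.symm t2, (ne hk hq).symm, Ne.symm w2⟩,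
    ⟨(ne hh' hs).symm, Ne.symm t3, (ne hk hs).symm, Ne.symm w3⟩,
    ⟨ne hh' nt, k2.symm, ne hh' nw⟩, ⟨(ne hk nt).symm, Ne.symm w4⟩, ne hk nw⟩

/-- two edges among the common neighbours have the same ends -/
lemma F3 (hG : NoC8 G) {T : Finset V} (hT : T.card = 3) (hM : 8 ≤ (CM G T).card)
    {u v p q : V} (hu : u ∈ CM G T) (hv : v ∈ CM G T) (hp : p ∈ CM G T) (hq : q ∈ CM G T)
    (huv : G.Adj u v) (hpq : G.Adj p q) : (p = u ∧ q = v) ∨ (p = v ∧ q = u) := by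
  by_cases h1 : u = p
  · subst h1
    exact Or.inl ⟨rfl, F1 hG hT hM (CM_notMem hu) hq hv hpq huv⟩
  by_cases h2 : u = q
  · subst h2
    exact Or.inr ⟨F1 hG hT hM (CM_notMem hu) hp hv hpq.symm huv, rfl⟩
  by_cases h3 : v = p
  · subst h3
    exact Or.inr ⟨rfl, F1 hG hT hM (CM_notMem hv) hq hu hpq huv.symm⟩
  by_cases h4 : v = q
  · subst h4
    exact Or.inl ⟨F1 hG hT hM (CM_notMem hv) hp hu hpq.symm huv.symm, rfl⟩
  exact (F2 hG hT hM hu hv hp hq huv hpq h1 h2 h3 h4).elim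

end Pool.Agent.Helper92.HX
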