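import Pool.Agent.Helper92.HX.Hubs

namespace Pool.Agent.Helper92.HX

open Finset

variable {V : Type*} [Fintype V] [DecidableEq V] {G : SimpleGraph V} [DecidableRel G.Adj]

/-- common neighbours with a neighbour off the hubs -/
def MP (G : SimpleGraph V) [DecidableRel G.Adj] (T : Finset V) : Finset V :=
  (CM G T).filter fun v => ∃ w, w ∉ T ∧ G.Adj v w

/-- the small exceptional set -/
def WS (G : SimpleGraph V) [DecidableRel G.Adj] (T : Finset V) : Finset V :=
  (RM G T ∪ MP G T) ∪ T

lemma card_nbrM (hG : NoC8 G) {T : Finset V} (hT : T.card = 3) (hM : 8 ≤ (CM G T).card) {r : V}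
    (hr : r ∉ T) : ((CM G T).filter fun v => G.Adj r v).card ≤ 1 := by
  rw [card_le_one]
  intro x hx y hy
  rw [mem_filter] at hx hy
  exact F1 hG hT hM hr hx.1 hy.1 hx.2 hy.2

lemma card_MP (hG : NoC8 G) {T : Finset V} (hT : T.card = 3) (hM : 8 ≤ (CM G T).card) :
    (MP G T).card ≤ (RM G T).card + 2 := by
  classical
  set E := (CM G T).filter fun v => ∃ u ∈ CM G T, G.Adj v u with hE
  have h1 : MP G T ⊆ ((RM G T).biUnion fun r => (CM G T).filter fun v => G.Adj r v) ∪ E := by
    intro v hv
    unfold MP at hv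
    rw [mem_filter] at hv
    obtain ⟨hv, w, hw, hvw⟩ := hv
    rw [mem_union, mem_biUnion]
    by_cases hwC : w ∈ CM G T
    · exact Or.inr (mem_filter.2 ⟨hv, w, hwC, hvw⟩)
    · exact Or.inl ⟨w, mem_RM.2 ⟨hw, hwC⟩, mem_filter.2 ⟨hv, hvw.symm⟩⟩
  have h2 : E.card ≤ 2 := by
    rcases E.eq_empty_or_nonempty with h | ⟨v, hv⟩
    · rw [h]; simp
    · rw [hE, mem_filter] at hv
      obtain ⟨hv, u, hu, hvu⟩ := hv
      have : E ⊆ {v, u} := by
        intro p hp
        rw [hE, mem_filter] at hp
        obtain ⟨hp, q, hq, hpq⟩ := hp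
        rcases F3 hG hT hM hv hu hp hq hvu hpq with h | h
        · simp [h.1]
        · simp [h.1]
      exact (card_le_card this).trans card_le_two
  have h3 : ((RM G T).biUnion fun r => (CM G T).filter fun v => G.Adj r v).card ≤
      (RM G T).card := by
    refine card_biUnion_le.trans ?_
    refine (sum_le_sum fun r hr => card_nbrM hG hT hM (mem_RM.1 hr).1).trans ?_
    simp
  exact (card_le_card h1).trans ((card_union_le _ _).trans (add_le_add h3 h2))

lemma card_WS (hG : NoC8 G) {T : Finset V} (hT : T.card = 3) (hM : 8 ≤ (CM G T).card) :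
    (WS G T).card ≤ 2 * (RM G T).card + 5 := by
  unfold WS
  have h1 := card_union_le (RM G T ∪ MP G T) T
  have h2 := card_union_le (RM G T) (MP G T)
  have h3 := card_MP hG hT hM
  omega

lemma card_off (hG : NoC8 G) {T : Finset V} (hT : T.card = 3) (hM : 8 ≤ (CM G T).card) {r : V}
    (hr : r ∉ T) : ((G.neighborFinset r).filter fun v => v ∉ T).card ≤ (RM G T).card + 1 := by
  have h1 : ((G.neighborFinset r).filter fun v => v ∉ T) ⊆
      RM G T ∪ ((CM G T).filter fun v => G.Adj r v) := by
    intro v hv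
    rw [mem_filter, SimpleGraph.mem_neighborFinset] at hv
    rw [mem_union, mem_filter, mem_RM]
    tauto
  exact (card_le_card h1).trans ((card_union_le _ _).trans
    (Nat.add_le_add_left (card_nbrM hG hT hM hr) _))

lemma two_hubs {T : Finset V} (hT : T.card = 3) {r : V} (hr : r ∈ RM G T) :
    (T.filter fun h => G.Adj r h).card ≤ 2 := by
  by_contra hc
  push Not at hc
  have h1 : (T.filter fun h => G.Adj r h) = T := by
    refine eq_of_subset_of_card_le (filter_subset _ _) (by omega)
  apply (mem_RM.1 hr).2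
  rw [mem_CM]
  intro h hh
  rw [← h1, mem_filter] at hh
  exact hh.2.symm

/-- first type: alternate hubs and a remaining vertex -/
def PA (G : SimpleGraph V) [DecidableRel G.Adj] (T : Finset V) (f : Fin 6 → V) : Prop :=
  f 0 ∈ RM G T ∧ f 1 ∈ T ∧ f 3 ∈ T ∧ f 5 ∈ T

/-- second type: three hubs and two neighbouring other vertices -/
def PB (G : SimpleGraph V) [DecidableRel G.Adj] (T : Finset V) (f : Fin 6 → V) : Prop :=
  f 1 ∈ T ∧ f 5 ∈ T ∧ f 2 ∈ T ∧ f 3 ∉ T ∧ f 4 ∉ T ∧ (f 3 ∈ RM G T ∨ f 4 ∈ RM G T)

instance (T : Finset V) : DecidablePred (PA G T) := by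
  intro f; unfold PA; infer_instance

instance (T : Finset V) : DecidablePred (PB G T) := by
  intro f; unfold PB; infer_instance

lemma classify (hG : NoC8 G) {T : Finset V} (hT : T.card = 3) (hM : 8 ≤ (CM G T).card)
    {f : Fin 6 → V} (hf : IsHex G f) :
    (∀ i, f i ∈ CM G T ∪ T) ∨ (∃ i : Fin 6, PA G T (fun k => f (k + i))) ∨
    (∃ j : Fin 6, PB G T (fun k => f (k + j))) ∨
    (∃ j : Fin 6, PB G T (fun k => f (- k + j))) ∨ (∀ i, f i ∈ WS G T) := by
  by_cases hA : ∀ i, f i ∈ CM G T ∪ T
  · exact Or.inl hA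
  by_cases hW : ∀ i, f i ∈ WS G T
  · exact Or.inr (Or.inr (Or.inr (Or.inr hW)))
  push Not at hA hW
  obtain ⟨i₀, hi₀⟩ := hA
  obtain ⟨j, hj⟩ := hW
  have hR : f i₀ ∈ RM G T := by
    rw [mem_union, not_or] at hi₀
    exact mem_RM.2 ⟨hi₀.2, hi₀.1⟩
  unfold WS at hj
  rw [mem_union, mem_union, not_or, not_or] at hj
  obtain ⟨⟨j1, j2⟩, j3⟩ := hj
  have jC : f j ∈ CM G T := by
    by_contra hc
    exact j1 (mem_RM.2 ⟨j3, hc⟩)
  have jN : ∀ w, G.Adj (f j) w → w ∈ T := by
    intro w hw
    by_contra hc
    exact j2 (mem_filter.2 ⟨jC, w, hc, hw⟩)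
  -- rotate
  have hg := hf.rot j
  set g : Fin 6 → V := fun k => f (k + j) with hgdef
  have g0 : g 0 = f j := by simp [hgdef]
  have g1 : g 1 ∈ T := jN _ (by rw [← g0]; exact hg.2 0)
  have g5 : g 5 ∈ T := jN _ (by rw [← g0]; exact (hg.2 5).symm)
  have gR : g (i₀ - j) ∈ RM G T := by simpa [hgdef] using hR
  have gne : ∀ a b : Fin 6, a ≠ b → g a ≠ g b := fun a b hab => hg.1.ne hab
  have g0C : g 0 ∈ CM G T := by rw [g0]; exact jC
  have hRT : ∀ v ∈ RM G T, v ∉ T := fun v hv => (mem_RM.1 hv).1
  obtain ⟨i, hi⟩ : ∃ i, g i ∈ RM G T := ⟨_, gR⟩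
  have key : (∃ i : Fin 6, PA G T (fun k => g (k + i))) ∨ PB G T g ∨
      PB G T (fun k => g (- k)) := by
    by_cases h3 : g 3 ∈ T
    · left
      fin_cases i
      · exact absurd g0C (mem_RM.1 hi).2
      · exact absurd g1 (hRT _ hi)
      · exact ⟨2, hi, h3, g5, g1⟩
      · exact absurd h3 (hRT _ hi)
      · exact ⟨4, hi, g5, g1, h3⟩
      · exact absurd g5 (hRT _ hi)
    · right
      by_cases h2 : g 2 ∈ T
      · by_cases h4 : g 4 ∈ T
        · exfalso
          rcases hubs_three hT g1 h2 g5 h4 (gne 1 2 (by decide)) (gne 1 5 (by decide))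
            (gne 2 5 (by decide)) with h | h | h
          · exact gne 4 1 (by decide) h
          · exact gne 4 2 (by decide) h
          · exact gne 4 5 (by decide) h
        · left
          refine ⟨g1, g5, h2, h3, h4, ?_⟩
          fin_cases i
          · exact absurd g0C (mem_RM.1 hi).2
          · exact absurd g1 (hRT _ hi)
          · exact absurd h2 (hRT _ hi)
          · exact Or.inl hi
          · exact Or.inr hi
          · exact absurd g5 (hRT _ hi)
      · by_cases h4 : g 4 ∈ T
        · right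
          refine ⟨g5, g1, h4, h3, h2, ?_⟩
          fin_cases i
          · exact absurd g0C (mem_RM.1 hi).2
          · exact absurd g1 (hRT _ hi)
          · exact Or.inr hi
          · exact Or.inl hi
          · exact absurd h4 (hRT _ hi)
          · exact absurd g5 (hRT _ hi)
        · exact (F4 hG hT hM g1 g5 (gne 1 5 (by decide)) h2 h3 h4 (gne 2 4 (by decide))
            (hg.2 1) (hg.2 2) (hg.2 3) (hg.2 4)).elim
  rcases key with ⟨i, h⟩ | h | h
  · refine Or.inr (Or.inl ⟨i + j, ?_⟩)
    simpa [hgdef, add_assoc] using h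
  · exact Or.inr (Or.inr (Or.inl ⟨j, h⟩))
  · exact Or.inr (Or.inr (Or.inr (Or.inl ⟨j, h⟩)))

lemma count_PA {T : Finset V} (hT : T.card = 3) :
    (univ.filter fun f : Fin 6 → V => IsHex G f ∧ PA G T f).card ≤
      2 * (RM G T).card * (Fintype.card V) ^ 2 := by
  classical
  have hQ : (((RM G T) ×ˢ T).filter fun p => G.Adj p.1 p.2).card ≤ 2 * (RM G T).card := by
    rw [card_filter, sum_product]
    calc ∑ x ∈ RM G T, ∑ y ∈ T, (if G.Adj x y then 1 else 0) ≤ ∑ x ∈ RM G T, 2 := by
          refine sum_le_sum fun r hr => ?_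
          rw [← card_filter]
          exact two_hubs hT hr
      _ = 2 * (RM G T).card := by rw [sum_const, smul_eq_mul, mul_comm]
  calc _ ≤ ((((RM G T) ×ˢ T).filter fun p => G.Adj p.1 p.2) ×ˢ
        ((univ : Finset V) ×ˢ (univ : Finset V))).card := by
        refine card_le_card_of_injOn (fun f => ((f 0, f 1), (f 2, f 4))) ?_ ?_
        · intro f hf
          rw [mem_coe, mem_filter] at hf
          obtain ⟨_, h1, h2⟩ := hf
          rw [mem_coe, mem_product, mem_filter, mem_product]
          exact ⟨⟨⟨h2.1, h2.2.1⟩, h1.2 0⟩, mem_product.2 ⟨mem_univ _, mem_univ _⟩⟩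
        · intro f hf g hg hfg
          rw [mem_coe, mem_filter] at hf hg
          obtain ⟨_, h1, h2⟩ := hf
          obtain ⟨_, k1, k2⟩ := hg
          simp only [Prod.mk.injEq] at hfg
          obtain ⟨⟨e0, e1⟩, e2, e4⟩ := hfg
          have e5 : f 5 = g 5 := by
            by_contra hne
            have hsub : ({f 1, f 5, g 5} : Finset V) ⊆ T.filter fun h => G.Adj (f 0) h := by
              intro x hx
              simp only [mem_insert, mem_singleton] at hx
              rw [mem_filter]
              rcases hx with rfl | rfl | rfl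
              · exact ⟨h2.2.1, h1.2 0⟩
              · exact ⟨h2.2.2.2, (h1.2 5).symm⟩
              · refine ⟨k2.2.2.2, ?_⟩
                rw [e0]
                exact (k1.2 5).symm
            have hc : ({f 1, f 5, g 5} : Finset V).card = 3 := by
              rw [card_eq_three]
              refine ⟨_, _, _, h1.1.ne (by decide), ?_, hne, rfl⟩
              rw [e1]
              exact k1.1.ne (by decide)
            have h3 := card_le_card hsub
            have h4 := two_hubs hT h2.1
            omega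
          have e3 : f 3 = g 3 := by
            rcases hubs_three hT h2.2.1 h2.2.2.2 h2.2.2.1 k2.2.2.1
              (h1.1.ne (by decide)) (h1.1.ne (by decide)) (h1.1.ne (by decide)) with h | h | h
            · rw [e1] at h
              exact absurd h (k1.1.ne (by decide))
            · rw [e5] at h
              exact absurd h (k1.1.ne (by decide))
            · exact h.symm
          funext i
          fin_cases i
          · exact e0
          · exact e1
          · exact e2
          · exact e3
          · exact e4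
          · exact e5
    _ ≤ _ := by
        rw [card_product, card_product, card_univ, ← sq]
        exact Nat.mul_le_mul_right _ hQ

lemma count_PB (hG : NoC8 G) {T : Finset V} (hT : T.card = 3) (hM : 8 ≤ (CM G T).card) :
    (univ.filter fun f : Fin 6 → V => IsHex G f ∧ PB G T f).card ≤
      Fintype.card V * (27 * (2 * ((RM G T).card * ((RM G T).card + 1)))) := by
  classical
  set Q : Finset (V × V) := univ.filter fun p : V × V => p.1 ∉ T ∧ p.2 ∉ T ∧ G.Adj p.1 p.2 ∧
    (p.1 ∈ RM G T ∨ p.2 ∈ RM G T) with hQdef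
  have hQ1 : (univ.filter fun p : V × V => p.1 ∈ RM G T ∧ p.2 ∉ T ∧ G.Adj p.1 p.2).card ≤
      (RM G T).card * ((RM G T).card + 1) := by
    have e : (univ.filter fun p : V × V => p.1 ∈ RM G T ∧ p.2 ∉ T ∧ G.Adj p.1 p.2) =
        ((RM G T) ×ˢ univ).filter fun p : V × V => p.2 ∉ T ∧ G.Adj p.1 p.2 := by
      ext p
      simp only [mem_filter, mem_product, mem_univ, true_and, and_true]
    rw [e, card_filter, sum_product]
    calc _ ≤ ∑ x ∈ RM G T, ((RM G T).card + 1) := by
          refine sum_le_sum fun r hr => ?_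
          rw [← card_filter]
          refine le_trans (card_le_card ?_) (card_off hG hT hM (mem_RM.1 hr).1)
          intro v hv
          rw [mem_filter] at hv
          rw [mem_filter, SimpleGraph.mem_neighborFinset]
          exact ⟨hv.2.2, hv.2.1⟩
      _ = _ := by rw [sum_const, smul_eq_mul]
  have hQ2 : (univ.filter fun p : V × V => p.2 ∈ RM G T ∧ p.1 ∉ T ∧ G.Adj p.2 p.1).card ≤
      (RM G T).card * ((RM G T).card + 1) := by
    refine le_trans ?_ hQ1
    refine card_le_card_of_injOn Prod.swap ?_ (Prod.swap_injective.injOn)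
    intro p hp
    rw [mem_coe, mem_filter] at hp ⊢
    exact ⟨mem_univ _, hp.2⟩
  have hQ : Q.card ≤ 2 * ((RM G T).card * ((RM G T).card + 1)) := by
    have : Q ⊆ (univ.filter fun p : V × V => p.1 ∈ RM G T ∧ p.2 ∉ T ∧ G.Adj p.1 p.2) ∪
        (univ.filter fun p : V × V => p.2 ∈ RM G T ∧ p.1 ∉ T ∧ G.Adj p.2 p.1) := by
      intro p hp
      rw [hQdef, mem_filter] at hp
      rw [mem_union, mem_filter, mem_filter]
      have := hp.2.2.2.1.symm
      tauto
    have h1 := (card_le_card this).trans (card_union_le _ _)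
    omega
  calc _ ≤ ((univ : Finset V) ×ˢ ((T ×ˢ (T ×ˢ T)) ×ˢ Q)).card := by
        refine card_le_card_of_injOn (fun f => (f 0, ((f 1, (f 2, f 5)), (f 3, f 4)))) ?_ ?_
        · intro f hf
          rw [mem_coe, mem_filter] at hf
          obtain ⟨_, h1, h2⟩ := hf
          unfold PB at h2
          rw [mem_coe, mem_product, mem_product, mem_product, mem_product]
          refine ⟨mem_univ _, ⟨h2.1, h2.2.2.1, h2.2.1⟩, ?_⟩
          rw [hQdef, mem_filter]
          exact ⟨mem_univ _, h2.2.2.2.1, h2.2.2.2.2.1, h1.2 3, h2.2.2.2.2.2⟩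
        · intro f _ g _ hfg
          simp only [Prod.mk.injEq] at hfg
          obtain ⟨e0, ⟨e1, e2, e5⟩, e3, e4⟩ := hfg
          funext i
          fin_cases i
          · exact e0
          · exact e1
          · exact e2
          · exact e3
          · exact e4
          · exact e5
    _ ≤ _ := by
        rw [card_product, card_product, card_product, card_product, hT, card_univ]
        refine Nat.mul_le_mul_left _ ?_
        rw [show 3 * (3 * 3) = 27 by norm_num]
        exact Nat.mul_le_mul_left _ hQ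

end Pool.Agent.Helper92.HX
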