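import Pool.Agent.Helper92.HX.Uniq
import Pool.Agent.Helper10.HX.Sparse

namespace Pool.Agent.Helper92.HX

open Finset

/-- common neighbours of three vertices with large pairwise codegrees -/
lemma card_CM {V : Type*} [Fintype V] [DecidableEq V] {G : SimpleGraph V} [DecidableRel G.Adj]
    (a b c : V) : cod G a b + cod G b c ≤ Fintype.card V + (CM G {a, b, c}).card := by
  unfold cod
  have h1 := card_union_add_card_inter (G.neighborFinset a ∩ G.neighborFinset b)
    (G.neighborFinset b ∩ G.neighborFinset c)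
  have h2 : ((G.neighborFinset a ∩ G.neighborFinset b) ∪
    (G.neighborFinset b ∩ G.neighborFinset c)).card ≤ Fintype.card V := card_le_univ _
  have h3 : ((G.neighborFinset a ∩ G.neighborFinset b) ∩
    (G.neighborFinset b ∩ G.neighborFinset c)) ⊆ CM G {a, b, c} := by
    intro x hx
    rw [mem_CM]
    simp only [mem_inter, SimpleGraph.mem_neighborFinset] at hx
    simp only [mem_insert, mem_singleton, forall_eq_or_imp, forall_eq]
    exact ⟨hx.1.1, hx.1.2, hx.2.2⟩
  have h4 := card_le_card h3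
  omega

lemma cast_target {n : ℕ} (hn : 5 ≤ n) :
    ((12 * ((n - 5) * ((n - 3) * (n - 4) + 12)) : ℕ) : ℝ) =
      12 * (((n : ℝ) - 5) * (((n : ℝ) - 3) * ((n : ℝ) - 4) + 12)) := by
  rw [Nat.cast_mul, Nat.cast_mul, Nat.cast_add, Nat.cast_mul, Nat.cast_sub hn,
    Nat.cast_sub (by omega : 3 ≤ n), Nat.cast_sub (by omega : 4 ≤ n)]
  norm_num

/-- the main theorem in terms of labelled hexagons -/
theorem main : ∃ n₀ : ℕ, 1000000 ≤ n₀ ∧ ∀ n, n₀ ≤ n → ∀ (G : SimpleGraph (Fin n))
    [DecidableRel G.Adj], NoC8 G →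
    hexCount G ≤ 12 * ((n - 5) * ((n - 3) * (n - 4) + 12)) ∧
    (hexCount G = 12 * ((n - 5) * ((n - 3) * (n - 4) + 12)) →
      ∃ (T : Finset (Fin n)) (u v : Fin n), T.card = 3 ∧ u ∉ T ∧ v ∉ T ∧ u ≠ v ∧
        G = Gam T u v) := by
  classical
  set ε : ℝ := 1 / 10000 with hε
  set K : ℝ := 64 * 1573 ^ 3 / ε ^ 2 with hK
  obtain ⟨n₁, hn₁⟩ := sparse 172 (by norm_num) (ε / 100) (by rw [hε]; norm_num)
  obtain ⟨n₂, hn₂⟩ := exists_nat_ge (40 * K ^ 2 / ε)
  refine ⟨n₁ + n₂ + 1000000, by omega, fun n hn G _ hG => ?_⟩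
  have hcard : Fintype.card (Fin n) = n := Fintype.card_fin n
  have hn6 : (1000000 : ℝ) ≤ n := by exact_mod_cast (by omega : 1000000 ≤ n)
  have hn2 : 40 * K ^ 2 ≤ ε * (n : ℝ) := by
    have h1 : 40 * K ^ 2 / ε ≤ (n : ℝ) := hn₂.trans (by exact_mod_cast (by omega : n₂ ≤ n))
    have hε0 : 0 < ε := by rw [hε]; norm_num
    rw [div_le_iff₀ hε0] at h1
    linarith
  have hsp := hn₁ (Fin n) G hG (by rw [hcard]; omega) (deg_sq_le hG)
    (fun η h0 h1 N => EN_le hG h0 h1 N)
  have hst := stability hG (ε := ε) (K := K) (by rw [hε]; norm_num) (by rw [hε]; norm_num)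
    (le_refl _) (by rw [hcard]; exact hn2) hsp
  rw [hcard] at hst
  have ht := cast_target (n := n) (by omega)
  rcases hst with ⟨a, b, c, hab, hbc, hca, h1, h2, h3⟩ | hst
  · set T : Finset (Fin n) := {a, b, c} with hTdef
    have hT : T.card = 3 := card_eq_three.2 ⟨a, b, c, hab, hca.symm, hbc, rfl⟩
    have hC : (1 - 2 * ε) * (n : ℝ) ≤ ((CM G T).card : ℝ) := by
      have h4 := card_CM (G := G) a b c
      rw [hcard] at h4
      have h5 : (cod G a b : ℝ) + (cod G b c : ℝ) ≤ (n : ℝ) + ((CM G {a, b, c}).card : ℝ) := by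
        exact_mod_cast h4
      linarith
    have hM : 8 ≤ (CM G T).card := by
      have : (8 : ℝ) ≤ ((CM G T).card : ℝ) := by
        rw [hε] at hC
        linarith
      exact_mod_cast this
    have hsplit := card_split (G := G) hT
    rw [hcard] at hsplit
    have hsplit' : ((CM G T).card : ℝ) = (n : ℝ) - 3 - ((RM G T).card : ℝ) := by
      have : ((CM G T).card : ℝ) + ((RM G T).card : ℝ) + 3 = (n : ℝ) := by exact_mod_cast hsplit
      linarith
    by_cases hR : (RM G T).card = 0
    · obtain ⟨u, hu, v, hv, huv, hadj⟩ := exists_gam hG hT hM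
      have hall : ∀ x, x ∈ CM G T ∪ T := by
        intro x
        by_contra hx
        rw [mem_union, not_or] at hx
        have : x ∈ RM G T := mem_RM.2 ⟨hx.2, hx.1⟩
        rw [card_eq_zero] at hR
        rw [hR] at this
        exact absurd this (notMem_empty x)
      have hle : ∀ x y, G.Adj x y → (Gam T u v).Adj x y := fun x y h =>
        hadj x (hall x) y (hall y) h
      have hg := gam_hexCount T hT u v (CM_notMem hu) (CM_notMem hv) huv
      rw [hcard] at hg
      refine ⟨by rw [← hg]; exact hexCount_mono hle, fun he => ?_⟩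
      refine ⟨T, u, v, hT, CM_notMem hu, CM_notMem hv, huv, ?_⟩
      exact gam_strict hT (CM_notMem hu) (CM_notMem hv) huv (by rw [hcard]; omega) hle
        (by rw [hg, he])
    · have hm : (1 : ℝ) ≤ ((RM G T).card : ℝ) := by
        exact_mod_cast Nat.one_le_iff_ne_zero.2 hR
      have hmx : ((RM G T).card : ℝ) ≤ (n : ℝ) / 5000 := by
        rw [hsplit', hε] at hC
        linarith
      have hl := hexCount_local hG hT hM
      rw [hsplit', hcard] at hl
      have hnum := numeric hn6 hm hmx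
      have hlt : (hexCount G : ℝ) < ((12 * ((n - 5) * ((n - 3) * (n - 4) + 12)) : ℕ) : ℝ) := by
        rw [ht]
        exact lt_of_le_of_lt hl hnum
      have hlt' : hexCount G < 12 * ((n - 5) * ((n - 3) * (n - 4) + 12)) := by
        exact_mod_cast hlt
      exact ⟨hlt'.le, fun he => absurd he hlt'.ne⟩
  · have hlt : (hexCount G : ℝ) < ((12 * ((n - 5) * ((n - 3) * (n - 4) + 12)) : ℕ) : ℝ) := by
      rw [ht]
      refine lt_of_le_of_lt hst ?_
      rw [hε]
      have h1 : (n : ℝ) ^ 3 * (1 / 20000) ≥ 50 * (n : ℝ) ^ 2 := by nlinarith [sq_nonneg (n : ℝ)]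
      nlinarith
    have hlt' : hexCount G < 12 * ((n - 5) * ((n - 3) * (n - 4) + 12)) := by
      exact_mod_cast hlt
    exact ⟨hlt'.le, fun he => absurd he hlt'.ne⟩

end Pool.Agent.Helper92.HX
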