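import Pool.Agent.Helper92.HX.Basic

namespace Pool.Agent.Helper92.HX

open Finset

variable {V : Type*} [Fintype V] [DecidableEq V] {G : SimpleGraph V} [DecidableRel G.Adj]

/-- number of ordered high pairs inside `N` -/
def EN (G : SimpleGraph V) [DecidableRel G.Adj] (N : Finset V) : ℕ :=
  ((N ×ˢ N).filter fun p => High G p.1 p.2).card

/-- number of high partners inside `N` -/
def hN (G : SimpleGraph V) [DecidableRel G.Adj] (N : Finset V) (a : V) : ℕ :=
  (N.filter fun b => High G a b).card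

lemma EN_eq (N : Finset V) : EN G N = ∑ a ∈ N, hN G N a := by
  unfold EN hN
  rw [card_filter, sum_product]
  refine sum_congr rfl fun a _ => ?_
  rw [card_filter]

lemma sum_hN_sq (hG : NoC8 G) (N : Finset V) :
    ∑ a ∈ N, hN G N a ^ 2 ≤ N.card ^ 2 + EN G N := by
  have h1 : ∑ a ∈ N, hN G N a ^ 2 = ∑ b ∈ N, ∑ b' ∈ N,
      (N.filter fun a => High G a b ∧ High G a b').card := by
    have : ∀ a ∈ N, hN G N a ^ 2 = ∑ b ∈ N, ∑ b' ∈ N,
        (if High G a b ∧ High G a b' then 1 else 0) := by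
      intro a _
      unfold hN
      rw [sq, card_filter, sum_mul_sum]
      refine sum_congr rfl fun b _ => sum_congr rfl fun b' _ => ?_
      by_cases h : High G a b <;> by_cases h' : High G a b' <;> simp [h, h']
    rw [sum_congr rfl this, sum_comm]
    refine sum_congr rfl fun b _ => ?_
    rw [sum_comm]
    refine sum_congr rfl fun b' _ => ?_
    rw [card_filter]
  have h2 : ∀ b ∈ N, ∀ b' ∈ N, (N.filter fun a => High G a b ∧ High G a b').card ≤
      1 + (if b = b' then hN G N b else 0) := by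
    intro b _ b' _
    by_cases hb : b = b'
    · subst hb
      simp only [and_self, if_true]
      have : (N.filter fun a => High G a b) = N.filter fun a => High G b a := by
        refine filter_congr fun a _ => ⟨fun h => h.symm, fun h => h.symm⟩
      rw [this]
      unfold hN
      omega
    · simp only [hb, if_false, add_zero]
      rw [card_le_one]
      intro a ha a' ha'
      rw [mem_filter] at ha ha'
      by_contra hne
      exact hi_noC4 hG hb hne ha.2.1.symm ha.2.2 ha'.2.2.symm ha'.2.1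
  rw [h1]
  calc ∑ b ∈ N, ∑ b' ∈ N, (N.filter fun a => High G a b ∧ High G a b').card
      ≤ ∑ b ∈ N, ∑ b' ∈ N, (1 + (if b = b' then hN G N b else 0)) :=
        sum_le_sum fun b hb => sum_le_sum fun b' hb' => h2 b hb b' hb'
    _ = N.card ^ 2 + EN G N := by
        simp only [sum_add_distrib, sum_const, smul_eq_mul, mul_one, sum_ite_eq, EN_eq]
        rw [sq]
        congr 1
        refine sum_congr rfl fun b hb => ?_
        rw [if_pos hb]

lemma EN_sq (hG : NoC8 G) (N : Finset V) :
    (EN G N : ℝ) ^ 2 ≤ (N.card : ℝ) ^ 3 + N.card * EN G N := by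
  have h1 : (∑ a ∈ N, (hN G N a : ℝ)) ^ 2 ≤ N.card * ∑ a ∈ N, (hN G N a : ℝ) ^ 2 :=
    sq_sum_le_card_mul_sum_sq
  have h2 : ∑ a ∈ N, (hN G N a : ℝ) ^ 2 ≤ (N.card : ℝ) ^ 2 + EN G N := by
    exact_mod_cast sum_hN_sq hG N
  have h3 : (EN G N : ℝ) = ∑ a ∈ N, (hN G N a : ℝ) := by
    rw [EN_eq]; push_cast; rfl
  rw [← h3] at h1
  nlinarith [Nat.cast_nonneg (α := ℝ) N.card]

lemma EN_le (hG : NoC8 G) {η : ℝ} (h0 : 0 < η) (h1 : η ≤ 1) (N : Finset V) :
    (EN G N : ℝ) ≤ η * (N.card : ℝ) ^ 2 + 2 / η * (N.card : ℝ) := by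
  by_contra hc
  push Not at hc
  have h := EN_sq hG N
  set E : ℝ := (EN G N : ℝ)
  set m : ℝ := (N.card : ℝ)
  have hm : 0 ≤ m := Nat.cast_nonneg _
  have hE : 0 ≤ E := Nat.cast_nonneg _
  have h2 : 2 ≤ 2 / η := by rw [le_div_iff₀ h0]; linarith
  have h3 : 2 * m ≤ E := by nlinarith [mul_nonneg h0.le (sq_nonneg m)]
  have h4 : (η * m ^ 2 + 2 / η * m) ^ 2 < E ^ 2 := by
    have : 0 ≤ η * m ^ 2 + 2 / η * m := by positivity
    nlinarith
  have h5 : (η * m ^ 2 + 2 / η * m) ^ 2 = (η * m ^ 2 - 2 / η * m) ^ 2 + 8 * m ^ 3 := by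
    field_simp
    ring
  have h6 : 8 * m ^ 3 < E ^ 2 := by nlinarith [sq_nonneg (η * m ^ 2 - 2 / η * m)]
  nlinarith

/-- double counting of cherries -/
lemma sum_deg_sq : ∑ x, G.degree x ^ 2 = ∑ a, ∑ b, cod G a b := by
  have h1 : ∀ x, G.degree x ^ 2 = ∑ a, ∑ b, (if G.Adj a x ∧ G.Adj b x then 1 else 0) := by
    intro x
    have : G.degree x = ∑ a, (if G.Adj a x then 1 else 0) := by
      rw [← SimpleGraph.card_neighborFinset_eq_degree, ← card_filter]
      congr 1
      ext a
      simp [G.adj_comm]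
    rw [sq, this, sum_mul_sum]
    refine sum_congr rfl fun a _ => sum_congr rfl fun b _ => ?_
    by_cases h : G.Adj a x <;> by_cases h' : G.Adj b x <;> simp [h, h']
  rw [sum_congr rfl fun x _ => h1 x, sum_comm]
  refine sum_congr rfl fun a _ => ?_
  rw [sum_comm]
  refine sum_congr rfl fun b _ => ?_
  rw [← card_filter]
  unfold cod
  congr 1
  ext x
  simp

/-- the sum of codegrees over high pairs -/
lemma sum_high_cod : ∑ a, ∑ b, (if High G a b then cod G a b else 0) =
    ∑ x, EN G (G.neighborFinset x) := by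
  have h1 : ∀ x, EN G (G.neighborFinset x) = ∑ a, ∑ b,
      (if High G a b ∧ (G.Adj a x ∧ G.Adj b x) then 1 else 0) := by
    intro x
    unfold EN
    rw [← Fintype.sum_prod_type' (f := fun a b =>
      (if High G a b ∧ (G.Adj a x ∧ G.Adj b x) then 1 else 0)), ← card_filter]
    congr 1
    ext ⟨a, b⟩
    simp only [mem_filter, mem_product, SimpleGraph.mem_neighborFinset, mem_univ, true_and]
    rw [G.adj_comm x a, G.adj_comm x b]
    tauto
  rw [sum_congr rfl fun x _ => h1 x]
  symm
  rw [sum_comm]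
  refine sum_congr rfl fun a _ => ?_
  rw [sum_comm]
  refine sum_congr rfl fun b _ => ?_
  by_cases h : High G a b
  · simp only [h, if_true, true_and]
    rw [← card_filter]
    unfold cod
    congr 1
    ext x
    simp
  · simp [h]

/-- the sum of squared codegrees over high pairs -/
lemma sum_high_cod_sq : ∑ a, ∑ b, (if High G a b then cod G a b ^ 2 else 0) =
    ∑ x, ∑ y, EN G (G.neighborFinset x ∩ G.neighborFinset y) := by
  have h1 : ∀ x y, EN G (G.neighborFinset x ∩ G.neighborFinset y) = ∑ a, ∑ b,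
      (if High G a b ∧ ((G.Adj a x ∧ G.Adj b x) ∧ (G.Adj a y ∧ G.Adj b y)) then 1 else 0) := by
    intro x y
    unfold EN
    rw [← Fintype.sum_prod_type' (f := fun a b =>
      (if High G a b ∧ ((G.Adj a x ∧ G.Adj b x) ∧ (G.Adj a y ∧ G.Adj b y)) then 1 else 0)),
      ← card_filter]
    congr 1
    ext ⟨a, b⟩
    simp only [mem_filter, mem_product, SimpleGraph.mem_neighborFinset, mem_univ, true_and,
      mem_inter]
    rw [G.adj_comm x a, G.adj_comm x b, G.adj_comm y a, G.adj_comm y b]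
    tauto
  have h2 : ∀ a b, (if High G a b then cod G a b ^ 2 else 0) = ∑ x, ∑ y,
      (if High G a b ∧ ((G.Adj a x ∧ G.Adj b x) ∧ (G.Adj a y ∧ G.Adj b y)) then 1 else 0) := by
    intro a b
    by_cases h : High G a b
    · simp only [h, if_true, true_and]
      have : cod G a b = ∑ x, (if G.Adj a x ∧ G.Adj b x then 1 else 0) := by
        rw [← card_filter]
        unfold cod
        congr 1
        ext x
        simp
      rw [sq, this, sum_mul_sum]
      refine sum_congr rfl fun x _ => sum_congr rfl fun y _ => ?_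
      by_cases h : (G.Adj a x ∧ G.Adj b x) <;> by_cases h' : (G.Adj a y ∧ G.Adj b y) <;>
        simp [h, h']
    · simp [h]
  simp only [h1, h2]
  rw [sum_congr rfl fun a _ => sum_comm (s := univ) (t := univ)
    (f := fun b x => ∑ y, (if High G a b ∧ ((G.Adj a x ∧ G.Adj b x) ∧ (G.Adj a y ∧ G.Adj b y))
      then 1 else 0))]
  rw [sum_comm]
  refine sum_congr rfl fun x _ => ?_
  rw [sum_congr rfl fun a _ => sum_comm (s := univ) (t := univ)
    (f := fun b y => (if High G a b ∧ ((G.Adj a x ∧ G.Adj b x) ∧ (G.Adj a y ∧ G.Adj b y))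
      then 1 else 0))]
  rw [sum_comm]

lemma cod_self (a : V) : cod G a a = G.degree a := by
  unfold cod
  rw [inter_self, SimpleGraph.card_neighborFinset_eq_degree]

lemma cod_le_card (a b : V) : cod G a b ≤ Fintype.card V := by
  unfold cod
  exact card_le_univ _

lemma cod_low {a b : V} (hab : a ≠ b) (h : ¬ High G a b) : cod G a b ≤ 5 := by
  unfold High at h
  push Not at h
  have := h hab
  omega

/-- second moment of the degrees -/
lemma deg_sq_le (hG : NoC8 G) :
    ∑ x, (G.degree x : ℝ) ^ 2 ≤ 172 * (Fintype.card V : ℝ) ^ 2 := by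
  have h1 : ∑ x, (G.degree x : ℝ) ^ 2 = ∑ a, ∑ b, (cod G a b : ℝ) := by
    exact_mod_cast sum_deg_sq (G := G)
  have h2 : ∑ a, ∑ b, (cod G a b : ℝ) ≤ ∑ a, ∑ b, ((5 : ℝ) + (if a = b then
      (G.degree a : ℝ) else 0) + (if High G a b then (cod G a b : ℝ) else 0)) := by
    refine sum_le_sum fun a _ => sum_le_sum fun b _ => ?_
    by_cases hab : a = b
    · subst hab
      rw [cod_self]
      have : ¬ High G a a := fun h => h.1 rfl
      simp [this]
    · by_cases h : High G a b
      · simp [hab, h]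
      · have := cod_low hab h
        simp only [hab, h, if_false, add_zero]
        exact_mod_cast this
  have h3 : ∑ a, ∑ b, ((5 : ℝ) + (if a = b then
      (G.degree a : ℝ) else 0) + (if High G a b then (cod G a b : ℝ) else 0)) =
      5 * (Fintype.card V : ℝ) ^ 2 + ∑ a, (G.degree a : ℝ) +
        ∑ x, (EN G (G.neighborFinset x) : ℝ) := by
    simp only [sum_add_distrib, sum_const, card_univ, nsmul_eq_mul, sum_ite_eq, mem_univ,
      if_true]
    have : ∑ a, ∑ b, (if High G a b then (cod G a b : ℝ) else 0) =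
        ∑ x, (EN G (G.neighborFinset x) : ℝ) := by
      exact_mod_cast sum_high_cod (G := G)
    rw [this]
    ring
  have h4 : ∑ x, (EN G (G.neighborFinset x) : ℝ) ≤
      ∑ x, ((1 / 4) * (G.degree x : ℝ) ^ 2 + 8 * (G.degree x : ℝ)) := by
    refine sum_le_sum fun x _ => ?_
    have := EN_le hG (η := 1 / 4) (by norm_num) (by norm_num) (G.neighborFinset x)
    rw [SimpleGraph.card_neighborFinset_eq_degree] at this
    linarith
  have h5 : ∑ x, (9 * (G.degree x : ℝ)) ≤ ∑ x : V, ((G.degree x : ℝ) ^ 2 / 4 + 81) :=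
    sum_le_sum fun x _ => by nlinarith [sq_nonneg ((G.degree x : ℝ) - 18)]
  have h6 : (Fintype.card V : ℝ) ≤ (Fintype.card V : ℝ) ^ 2 := by
    rcases Nat.eq_zero_or_pos (Fintype.card V) with h | h
    · rw [h]; simp
    · have : (1 : ℝ) ≤ (Fintype.card V : ℝ) := by exact_mod_cast h
      nlinarith
  simp only [sum_add_distrib, ← mul_sum, ← sum_div, sum_const, card_univ, nsmul_eq_mul]
    at h4 h5
  nlinarith

/-- second moment of the codegrees of high pairs -/
lemma high_cod_sq_le (hG : NoC8 G) :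
    ∑ a, ∑ b, (if High G a b then (cod G a b : ℝ) ^ 2 else 0) ≤
      1573 * (Fintype.card V : ℝ) ^ 2 := by
  have h0 : ∑ a, ∑ b, (if High G a b then (cod G a b : ℝ) ^ 2 else 0) =
      ∑ x, ∑ y, (EN G (G.neighborFinset x ∩ G.neighborFinset y) : ℝ) := by
    exact_mod_cast sum_high_cod_sq (G := G)
  have h1 : ∑ x, ∑ y, (EN G (G.neighborFinset x ∩ G.neighborFinset y) : ℝ) ≤
      ∑ x, ∑ y, ((1 / 2) * (cod G x y : ℝ) ^ 2 + 4 * (cod G x y : ℝ)) := by
    refine sum_le_sum fun x _ => sum_le_sum fun y _ => ?_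
    have := EN_le hG (η := 1 / 2) (by norm_num) (by norm_num)
      (G.neighborFinset x ∩ G.neighborFinset y)
    unfold cod
    linarith
  have h2 : ∑ x, ∑ y, (cod G x y : ℝ) ^ 2 ≤ ∑ x, ∑ y, ((25 : ℝ) + (if x = y then
      (G.degree x : ℝ) ^ 2 else 0) + (if High G x y then (cod G x y : ℝ) ^ 2 else 0)) := by
    refine sum_le_sum fun a _ => sum_le_sum fun b _ => ?_
    by_cases hab : a = b
    · subst hab
      rw [cod_self]
      have : ¬ High G a a := fun h => h.1 rfl
      simp [this]
    · by_cases h : High G a b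
      · simp [hab, h]
      · have := cod_low hab h
        simp only [hab, h, if_false, add_zero]
        have h' : (cod G a b : ℝ) ≤ 5 := by exact_mod_cast this
        nlinarith [Nat.cast_nonneg (α := ℝ) (cod G a b)]
  have h3 : ∑ x, ∑ y, ((25 : ℝ) + (if x = y then
      (G.degree x : ℝ) ^ 2 else 0) + (if High G x y then (cod G x y : ℝ) ^ 2 else 0)) =
      25 * (Fintype.card V : ℝ) ^ 2 + ∑ a, (G.degree a : ℝ) ^ 2 +
        ∑ a, ∑ b, (if High G a b then (cod G a b : ℝ) ^ 2 else 0) := by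
    simp only [sum_add_distrib, sum_const, card_univ, nsmul_eq_mul, sum_ite_eq, mem_univ,
      if_true]
    ring
  have h4 : ∑ x, (G.degree x : ℝ) ^ 2 = ∑ a, ∑ b, (cod G a b : ℝ) := by
    exact_mod_cast sum_deg_sq (G := G)
  have h5 := deg_sq_le hG
  simp only [sum_add_distrib, ← mul_sum] at h1
  nlinarith

end Pool.Agent.Helper92.HX
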