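import Pool.Agent.Helper92.HX.Tri

namespace Pool.Agent.Helper92.HX

open Finset

variable {V : Type*} [Fintype V] [DecidableEq V] {G : SimpleGraph V} [DecidableRel G.Adj]

/-- summary of the triangle statistics -/
theorem tri_data (hG : NoC8 G) : ∃ s : Finset V → ℕ, ∃ S : Finset V → Finset V,
    (∀ T ∈ Tri G, (S T).card = s T) ∧
    (∀ T ∈ Tri G, ∀ T' ∈ Tri G, T ≠ T' → (S T ∩ S T').card ≤ 5) ∧
    ∑ T ∈ Tri G, (s T : ℝ) ^ 2 ≤ 1573 * (Fintype.card V : ℝ) ^ 2 ∧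
    (∀ T ∈ Tri G, s T ≤ Fintype.card V) ∧
    (∀ T ∈ Tri G, ∃ a b c : V, a ≠ b ∧ b ≠ c ∧ c ≠ a ∧
      fib G T ≤ 6 * (cod G a b * cod G b c * cod G c a) ∧ cod G a b ≤ s T ∧
      cod G b c ≤ s T ∧ cod G c a ≤ s T) := by
  classical
  by_cases hV : Nonempty V
  · have hex : ∀ T : Finset V, ∃ p : V × V × V, T ∈ Tri G →
        (p.1 ≠ p.2.1 ∧ p.1 ∈ T ∧ p.2.1 ∈ T ∧ p.2.2 ∈ T ∧ p.2.2 ≠ p.1 ∧ p.2.2 ≠ p.2.1 ∧
        T = {p.1, p.2.1, p.2.2} ∧ cod G p.2.1 p.2.2 ≤ cod G p.1 p.2.1 ∧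
        cod G p.2.2 p.1 ≤ cod G p.1 p.2.1) := by
      intro T
      by_cases hT : T ∈ Tri G
      · obtain ⟨p, hp⟩ := exists_top hT
        exact ⟨p, fun _ => hp⟩
      · exact ⟨(hV.some, hV.some, hV.some), fun h => absurd h hT⟩
    choose p hp using hex
    refine ⟨fun T => cod G (p T).1 (p T).2.1,
      fun T => G.neighborFinset (p T).1 ∩ G.neighborFinset (p T).2.1, fun T _ => rfl, ?_, ?_,
      fun T _ => cod_le_card _ _, ?_⟩
    · intro T hT T' hT' hne
      obtain ⟨h1, h2, h3, -⟩ := hp T hT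
      obtain ⟨h1', h2', h3', -⟩ := hp T' hT'
      exact inter_small hG hT hT' hne h1 h1' h2 h3 h2' h3'
    · refine le_trans ?_ (high_cod_sq_le hG)
      rw [← Fintype.sum_prod_type' (f := fun a b =>
        (if High G a b then (cod G a b : ℝ) ^ 2 else 0))]
      have hinj : Set.InjOn (fun T => ((p T).1, (p T).2.1)) (Tri G : Set (Finset V)) := by
        intro T hT T' hT' he
        simp only [Prod.mk.injEq] at he
        rw [mem_coe] at hT hT'
        obtain ⟨h1, h2, h3, -⟩ := hp T hT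
        obtain ⟨h1', h2', h3', -⟩ := hp T' hT'
        exact tri_unique hG hT hT' h1 h2 h3 (he.1 ▸ h2') (he.2 ▸ h3')
      have h1 : ∑ T ∈ Tri G, (cod G (p T).1 (p T).2.1 : ℝ) ^ 2 =
          ∑ T ∈ Tri G, (fun q : V × V => (if High G q.1 q.2 then (cod G q.1 q.2 : ℝ) ^ 2 else 0))
            ((p T).1, (p T).2.1) := by
        refine sum_congr rfl fun T hT => ?_
        obtain ⟨h1, h2, h3, -⟩ := hp T hT
        have := (mem_Tri.1 hT).2 _ h2 _ h3 h1
        simp [this]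
      rw [h1, ← sum_image (f := fun q : V × V => (if High G q.1 q.2 then
        (cod G q.1 q.2 : ℝ) ^ 2 else 0)) hinj]
      refine sum_le_univ_sum_of_nonneg fun q => ?_
      split_ifs
      · positivity
      · exact le_refl _
    · intro T hT
      obtain ⟨h1, h2, h3, h4, h5, h6, h7, h8, h9⟩ := hp T hT
      refine ⟨(p T).1, (p T).2.1, (p T).2.2, h1, h6.symm, h5, ?_, le_refl _, h8, h9⟩
      have := fiber_bound (G := G) (p T).1 (p T).2.1 (p T).2.2
      rw [← h7] at this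
      exact this
  · have he : Tri G = ∅ := by
      rw [eq_empty_iff_forall_notMem]
      intro T hT
      have := (mem_Tri.1 hT).1
      obtain ⟨x, hx⟩ := card_pos.1 (by rw [this]; norm_num : 0 < T.card)
      exact hV ⟨x⟩
    refine ⟨fun _ => 0, fun _ => ∅, ?_, ?_, ?_, ?_, ?_⟩ <;> rw [he] <;> simp

/-- crude bound -/
theorem crude (hG : NoC8 G) : (hexCount G : ℝ) ≤ 44676 * (Fintype.card V : ℝ) ^ 3 := by
  obtain ⟨s, S, h1, h2, h3, h4, h5⟩ := tri_data hG
  set n : ℝ := (Fintype.card V : ℝ) with hndef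
  have hn : 0 ≤ n := Nat.cast_nonneg _
  have hc : (hexCount G : ℝ) ≤ 2 * ∑ T ∈ Tri G, (fib G T : ℝ) +
      150 * (∑ v, (G.degree v : ℝ)) ^ 2 := by exact_mod_cast hexCount_le hG
  have e1 : ∑ T ∈ Tri G, (fib G T : ℝ) ≤ ∑ T ∈ Tri G, 6 * n * (s T : ℝ) ^ 2 := by
    refine sum_le_sum fun T hT => ?_
    obtain ⟨a, b, c, -, -, -, g, g1, g2, g3⟩ := h5 T hT
    have g' : (fib G T : ℝ) ≤ 6 * ((cod G a b : ℝ) * (cod G b c : ℝ) * (cod G c a : ℝ)) := by
      exact_mod_cast g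
    have s0 : (0 : ℝ) ≤ s T := Nat.cast_nonneg _
    have s1 : (s T : ℝ) ≤ n := by rw [hndef]; exact_mod_cast h4 T hT
    have c1 : (cod G a b : ℝ) ≤ s T := by exact_mod_cast g1
    have c2 : (cod G b c : ℝ) ≤ s T := by exact_mod_cast g2
    have c3 : (cod G c a : ℝ) ≤ s T := by exact_mod_cast g3
    have p1 : (cod G a b : ℝ) * (cod G b c : ℝ) ≤ s T * s T :=
      mul_le_mul c1 c2 (Nat.cast_nonneg _) s0
    have p2 : (cod G a b : ℝ) * (cod G b c : ℝ) * (cod G c a : ℝ) ≤ s T * s T * n :=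
      mul_le_mul p1 (c3.trans s1) (Nat.cast_nonneg _) (mul_nonneg s0 s0)
    nlinarith
  rw [← mul_sum] at e1
  have e2 : (∑ v, (G.degree v : ℝ)) ^ 2 ≤ n * (172 * n ^ 2) := by
    have := sq_sum_le_card_mul_sum_sq (s := univ) (f := fun v : V => (G.degree v : ℝ))
    rw [card_univ] at this
    exact this.trans (mul_le_mul_of_nonneg_left (deg_sq_le hG) hn)
  have e3 : 6 * n * ∑ T ∈ Tri G, (s T : ℝ) ^ 2 ≤ 6 * n * (1573 * n ^ 2) :=
    mul_le_mul_of_nonneg_left h3 (by positivity)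
  nlinarith

/-- stability: either three hubs, or few hexagons -/
theorem stability (hG : NoC8 G) {ε K : ℝ} (h0 : 0 < ε) (h1 : ε ≤ 1)
    (hK : 64 * 1573 ^ 3 / ε ^ 2 ≤ K) (hn : 40 * K ^ 2 ≤ ε * (Fintype.card V : ℝ))
    (hsp : (∑ v, (G.degree v : ℝ)) ^ 2 ≤ ε / 100 * (Fintype.card V : ℝ) ^ 3) :
    (∃ a b c : V, a ≠ b ∧ b ≠ c ∧ c ≠ a ∧ (1 - ε) * (Fintype.card V : ℝ) ≤ cod G a b ∧
      (1 - ε) * (Fintype.card V : ℝ) ≤ cod G b c ∧ (1 - ε) * (Fintype.card V : ℝ) ≤ cod G c a) ∨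
    (hexCount G : ℝ) ≤ 12 * (1 - ε / 2) * (Fintype.card V : ℝ) ^ 3 := by
  classical
  by_contra hcon
  push Not at hcon
  obtain ⟨hA, hB⟩ := hcon
  obtain ⟨s, S, h2, h3, h4, h5, h6⟩ := tri_data hG
  set n : ℝ := (Fintype.card V : ℝ) with hndef
  have hK0 : 0 < K := lt_of_lt_of_le (by positivity) hK
  have hn0 : 0 < n := by
    by_contra hc
    push Not at hc
    have : (0 : ℝ) < 40 * K ^ 2 := by positivity
    nlinarith
  have hc : (hexCount G : ℝ) ≤ 2 * ∑ T ∈ Tri G, (fib G T : ℝ) +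
      150 * (∑ v, (G.degree v : ℝ)) ^ 2 := by exact_mod_cast hexCount_le hG
  set η : ℝ := ε / (8 * 1573) with hη
  have hη0 : 0 < η := by positivity
  set L := (Tri G).filter fun T => η * n ≤ s T with hL
  set M := (Tri G).filter fun T => ¬ η * n ≤ s T with hM
  have hsplit : ∀ g : Finset V → ℝ, ∑ T ∈ Tri G, g T = ∑ T ∈ L, g T + ∑ T ∈ M, g T := by
    intro g
    rw [hL, hM, sum_filter_add_sum_filter_not]
  -- the number of large triangles
  have hLc : (L.card : ℝ) ≤ K := by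
    have h7 : ∑ T ∈ L, (η * n) ^ 2 ≤ ∑ T ∈ L, (s T : ℝ) ^ 2 := by
      refine sum_le_sum fun T hT => ?_
      have := (mem_filter.1 hT).2
      have h8 : 0 ≤ η * n := by positivity
      nlinarith
    have h9 : ∑ T ∈ L, (s T : ℝ) ^ 2 ≤ 1573 * n ^ 2 := by
      refine le_trans ?_ h4
      rw [hsplit fun T => (s T : ℝ) ^ 2]
      have : 0 ≤ ∑ T ∈ M, (s T : ℝ) ^ 2 := sum_nonneg fun T _ => sq_nonneg _
      linarith
    rw [sum_const, nsmul_eq_mul] at h7
    have h10 : (L.card : ℝ) * η ^ 2 * n ^ 2 ≤ 1573 * n ^ 2 := by nlinarith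
    have h11 : (L.card : ℝ) * η ^ 2 ≤ 1573 := le_of_mul_le_mul_right h10 (by positivity)
    have h12 : (L.card : ℝ) ≤ 64 * 1573 ^ 3 / ε ^ 2 := by
      rw [le_div_iff₀ (by positivity)]
      have e : η ^ 2 * (64 * 1573 ^ 2) = ε ^ 2 := by rw [hη]; field_simp; norm_num
      nlinarith
    exact h12.trans hK
  -- the sum over large triangles
  have hLs : ∑ T ∈ L, (s T : ℝ) ≤ n + 5 * K ^ 2 := by
    have h7 := almost_disjoint L S (fun T hT T' hT' hne =>
      h3 T (mem_filter.1 hT).1 T' (mem_filter.1 hT').1 hne)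
    have h8 : (L.biUnion S).card ≤ Fintype.card V := card_le_univ _
    have h9 : ∑ T ∈ L, (s T : ℝ) = ∑ T ∈ L, ((S T).card : ℝ) :=
      sum_congr rfl fun T hT => by rw [h2 T (mem_filter.1 hT).1]
    have h10 : ∑ T ∈ L, ((S T).card : ℝ) ≤ n + 5 * (L.card : ℝ) ^ 2 := by
      have : ∑ T ∈ L, (S T).card ≤ Fintype.card V + 5 * L.card ^ 2 := by omega
      rw [hndef]
      exact_mod_cast this
    rw [h9]
    have h11 : (L.card : ℝ) ^ 2 ≤ K ^ 2 := by
      have : (0 : ℝ) ≤ L.card := Nat.cast_nonneg _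
      nlinarith
    linarith
  -- fibres
  have hfM : ∑ T ∈ M, (fib G T : ℝ) ≤ 6 * (η * n) * (1573 * n ^ 2) := by
    have h7 : ∑ T ∈ M, (fib G T : ℝ) ≤ ∑ T ∈ M, 6 * (η * n) * (s T : ℝ) ^ 2 := by
      refine sum_le_sum fun T hT => ?_
      have hTm := (mem_filter.1 hT)
      have hs := hTm.2
      push Not at hs
      obtain ⟨a, b, c, -, -, -, g, g1, g2, g3⟩ := h6 T hTm.1
      have g' : (fib G T : ℝ) ≤ 6 * ((cod G a b : ℝ) * (cod G b c : ℝ) * (cod G c a : ℝ)) := by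
        exact_mod_cast g
      have s0 : (0 : ℝ) ≤ s T := Nat.cast_nonneg _
      have c1 : (cod G a b : ℝ) ≤ s T := by exact_mod_cast g1
      have c2 : (cod G b c : ℝ) ≤ s T := by exact_mod_cast g2
      have c3 : (cod G c a : ℝ) ≤ s T := by exact_mod_cast g3
      have p1 : (cod G a b : ℝ) * (cod G b c : ℝ) ≤ s T * s T :=
        mul_le_mul c1 c2 (Nat.cast_nonneg _) s0
      have p2 : (cod G a b : ℝ) * (cod G b c : ℝ) * (cod G c a : ℝ) ≤ s T * s T * (η * n) :=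
        mul_le_mul p1 (c3.trans hs.le) (Nat.cast_nonneg _) (mul_nonneg s0 s0)
      nlinarith
    refine h7.trans ?_
    rw [← mul_sum]
    refine mul_le_mul_of_nonneg_left ?_ (by positivity)
    refine le_trans ?_ h4
    rw [hsplit fun T => (s T : ℝ) ^ 2]
    have : 0 ≤ ∑ T ∈ L, (s T : ℝ) ^ 2 := sum_nonneg fun T _ => sq_nonneg _
    linarith
  have hfL : ∑ T ∈ L, (fib G T : ℝ) ≤ 6 * ((1 - ε) * n ^ 2) * (n + 5 * K ^ 2) := by
    have hε : 0 ≤ 1 - ε := by linarith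
    have h7 : ∑ T ∈ L, (fib G T : ℝ) ≤ ∑ T ∈ L, 6 * ((1 - ε) * n ^ 2) * (s T : ℝ) := by
      refine sum_le_sum fun T hT => ?_
      have hTm := (mem_filter.1 hT)
      obtain ⟨a, b, c, ab, bc, ca, g, g1, g2, g3⟩ := h6 T hTm.1
      have g' : (fib G T : ℝ) ≤ 6 * ((cod G a b : ℝ) * (cod G b c : ℝ) * (cod G c a : ℝ)) := by
        exact_mod_cast g
      have s0 : (0 : ℝ) ≤ s T := Nat.cast_nonneg _
      have s1 : (s T : ℝ) ≤ n := by rw [hndef]; exact_mod_cast h5 T hTm.1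
      have x1 : (cod G a b : ℝ) ≤ s T := by exact_mod_cast g1
      have x2 : (cod G b c : ℝ) ≤ s T := by exact_mod_cast g2
      have x3 : (cod G c a : ℝ) ≤ s T := by exact_mod_cast g3
      have y1 : (0 : ℝ) ≤ cod G a b := Nat.cast_nonneg _
      have y2 : (0 : ℝ) ≤ cod G b c := Nat.cast_nonneg _
      have y3 : (0 : ℝ) ≤ cod G c a := Nat.cast_nonneg _
      have z : (cod G a b : ℝ) * (cod G b c : ℝ) * (cod G c a : ℝ) ≤ (1 - ε) * n * (s T * n) := by
        by_cases k1 : (1 - ε) * n ≤ cod G a b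
        · by_cases k2 : (1 - ε) * n ≤ cod G b c
          · have k3 := hA a b c ab bc ca k1 k2
            have : (cod G a b : ℝ) * (cod G b c : ℝ) ≤ s T * n :=
              mul_le_mul x1 (x2.trans s1) y2 s0
            calc (cod G a b : ℝ) * (cod G b c : ℝ) * (cod G c a : ℝ) ≤
                (s T * n) * ((1 - ε) * n) :=
                  mul_le_mul this k3.le y3 (mul_nonneg s0 hn0.le)
              _ = _ := by ring
          · push Not at k2
            have : (cod G a b : ℝ) * (cod G c a : ℝ) ≤ s T * n :=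
              mul_le_mul x1 (x3.trans s1) y3 s0
            calc (cod G a b : ℝ) * (cod G b c : ℝ) * (cod G c a : ℝ) =
                ((cod G a b : ℝ) * (cod G c a : ℝ)) * (cod G b c : ℝ) := by ring
              _ ≤ (s T * n) * ((1 - ε) * n) :=
                  mul_le_mul this k2.le y2 (mul_nonneg s0 hn0.le)
              _ = _ := by ring
        · push Not at k1
          have : (cod G b c : ℝ) * (cod G c a : ℝ) ≤ s T * n :=
            mul_le_mul x2 (x3.trans s1) y3 s0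
          calc (cod G a b : ℝ) * (cod G b c : ℝ) * (cod G c a : ℝ) =
              ((cod G b c : ℝ) * (cod G c a : ℝ)) * (cod G a b : ℝ) := by ring
            _ ≤ (s T * n) * ((1 - ε) * n) :=
                mul_le_mul this k1.le y1 (mul_nonneg s0 hn0.le)
            _ = _ := by ring
      calc (fib G T : ℝ) ≤ 6 * ((1 - ε) * n * (s T * n)) := by linarith
        _ = _ := by ring
    refine h7.trans ?_
    rw [← mul_sum]
    exact mul_le_mul_of_nonneg_left hLs (by positivity)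
  have hsum := hsplit fun T => (fib G T : ℝ)
  have e1 : 6 * (η * n) * (1573 * n ^ 2) = 6 * (ε / 8) * n ^ 3 := by
    rw [hη]; field_simp
  have e2 : 5 * K ^ 2 ≤ ε / 8 * n := by linarith
  have e3 : (1 - ε) * n ^ 2 * (5 * K ^ 2) ≤ ε / 8 * n ^ 3 := by
    have : (1 - ε) * n ^ 2 * (5 * K ^ 2) ≤ 1 * n ^ 2 * (ε / 8 * n) := by
      refine mul_le_mul ?_ e2 (by positivity) (by positivity)
      exact mul_le_mul_of_nonneg_right (by linarith) (by positivity)
    nlinarith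
  have e4 : 6 * ((1 - ε) * n ^ 2) * (n + 5 * K ^ 2) = 6 * (1 - ε) * n ^ 3 +
      6 * ((1 - ε) * n ^ 2 * (5 * K ^ 2)) := by ring
  have e5 : 0 < ε * n ^ 3 := by positivity
  rw [e1] at hfM
  rw [e4] at hfL
  nlinarith

end Pool.Agent.Helper92.HX
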