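import Pool.Agent.Helper92.HX.Local
import Pool.Agent.Helper92.HX.Stab

namespace Pool.Agent.Helper92.HX

open Finset

variable {V : Type*} [Fintype V] [DecidableEq V] {G : SimpleGraph V} [DecidableRel G.Adj]

instance comapDec {W : Type*} (φ : W → V) : DecidableRel (G.comap φ).Adj :=
  fun a b => inferInstanceAs (Decidable (G.Adj (φ a) (φ b)))

lemma NoC8.comap {W : Type*} (hG : NoC8 G) (φ : W → V) (hφ : Function.Injective φ) :
    NoC8 (G.comap φ) := by
  intro a b c d e f g h hnd h1 h2 h3 h4 h5 h6 h7 h8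
  refine hG (φ a) (φ b) (φ c) (φ d) (φ e) (φ f) (φ g) (φ h) ?_ h1 h2 h3 h4 h5 h6 h7 h8
  exact hnd.map hφ

/-- hexagons inside a set -/
lemma count_sub (S : Finset V) : (univ.filter fun f : Fin 6 → V => IsHex G f ∧ ∀ i, f i ∈ S).card ≤
    hexCount (G.comap (Subtype.val : {x // x ∈ S} → V)) := by
  classical
  unfold hexCount
  refine le_trans ?_ (card_image_le (s := univ.filter fun f : Fin 6 → {x // x ∈ S} =>
    IsHex (G.comap (Subtype.val : {x // x ∈ S} → V)) f) (f := fun f i => (f i : V)))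
  refine card_le_card ?_
  intro f hf
  rw [mem_filter] at hf
  obtain ⟨_, h1, h2⟩ := hf
  rw [mem_image]
  refine ⟨fun i => ⟨f i, h2 i⟩, ?_, rfl⟩
  rw [mem_filter]
  refine ⟨mem_univ _, fun a b hab => h1.1 (by simpa using hab), fun i => h1.2 i⟩

lemma hexCount_mono {H : SimpleGraph V} [DecidableRel H.Adj] (h : ∀ x y, G.Adj x y → H.Adj x y) :
    hexCount G ≤ hexCount H := by
  unfold hexCount
  refine card_le_card ?_
  intro f hf
  rw [mem_filter] at hf ⊢
  exact ⟨mem_univ _, hf.2.1, fun i => h _ _ (hf.2.2 i)⟩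

lemma count_WS (hG : NoC8 G) {T : Finset V} (hT : T.card = 3) (hM : 8 ≤ (CM G T).card) :
    ((univ.filter fun f : Fin 6 → V => IsHex G f ∧ ∀ i, f i ∈ WS G T).card : ℝ) ≤
      44676 * (2 * ((RM G T).card : ℝ) + 5) ^ 3 := by
  have h1 : ((univ.filter fun f : Fin 6 → V => IsHex G f ∧ ∀ i, f i ∈ WS G T).card : ℝ) ≤
      (hexCount (G.comap (Subtype.val : {x // x ∈ WS G T} → V)) : ℝ) := by
    exact_mod_cast count_sub (G := G) (WS G T)
  have h2 := crude (hG.comap (Subtype.val : {x // x ∈ WS G T} → V) Subtype.val_injective)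
  rw [Fintype.card_coe] at h2
  have h3 : ((WS G T).card : ℝ) ≤ 2 * ((RM G T).card : ℝ) + 5 := by
    exact_mod_cast card_WS hG hT hM
  have h4 : ((WS G T).card : ℝ) ^ 3 ≤ (2 * ((RM G T).card : ℝ) + 5) ^ 3 :=
    pow_le_pow_left₀ (Nat.cast_nonneg _) h3 3
  linarith

/-- the graph restricted to hubs and common neighbours lies in an extremal graph -/
lemma exists_gam (hG : NoC8 G) {T : Finset V} (hT : T.card = 3) (hM : 8 ≤ (CM G T).card) :
    ∃ u ∈ CM G T, ∃ v ∈ CM G T, u ≠ v ∧ ∀ x ∈ CM G T ∪ T, ∀ y ∈ CM G T ∪ T, G.Adj x y →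
      (Gam T u v).Adj x y := by
  by_cases h : ∃ u ∈ CM G T, ∃ v ∈ CM G T, G.Adj u v
  · obtain ⟨u, hu, v, hv, huv⟩ := h
    refine ⟨u, hu, v, hv, huv.ne, fun x hx y hy hxy => ⟨hxy.ne, ?_⟩⟩
    rw [mem_union] at hx hy
    rcases hx with hx | hx
    · rcases hy with hy | hy
      · rcases F3 hG hT hM hu hv hx hy huv hxy with h | h
        · exact Or.inr (Or.inr (Or.inl h))
        · exact Or.inr (Or.inr (Or.inr h))
      · exact Or.inr (Or.inl hy)
    · exact Or.inl hx
  · push Not at h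
    obtain ⟨u, hu, -⟩ := pickM hM ∅ (by simp)
    obtain ⟨v, hv, hv'⟩ := pickM hM {u} (by simp)
    rw [mem_singleton] at hv'
    refine ⟨u, hu, v, hv, Ne.symm hv', fun x hx y hy hxy => ⟨hxy.ne, ?_⟩⟩
    rw [mem_union] at hx hy
    rcases hx with hx | hx
    · rcases hy with hy | hy
      · exact absurd hxy (h x hx y hy)
      · exact Or.inr (Or.inl hy)
    · exact Or.inl hx

end Pool.Agent.Helper92.HX
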