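import Pool.Agent.Helper92.HX.Count

namespace Pool.Agent.Helper92.HX

open Finset

variable {V : Type*} [Fintype V] [DecidableEq V] {G : SimpleGraph V} [DecidableRel G.Adj]

lemma mem_Tri {T : Finset V} : T ∈ Tri G ↔ T.card = 3 ∧ ∀ x ∈ T, ∀ y ∈ T, x ≠ y → High G x y := by
  unfold Tri
  simp

/-- the third vertex of a triangle -/
lemma third {T : Finset V} (hT : T.card = 3) {a b : V} (ha : a ∈ T) (hb : b ∈ T) (hab : a ≠ b) :
    ∃ c ∈ T, c ≠ a ∧ c ≠ b ∧ T = {a, b, c} := by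
  have h1 : ({a, b} : Finset V) ⊆ T := by
    intro x hx
    simp only [mem_insert, mem_singleton] at hx
    rcases hx with rfl | rfl
    · exact ha
    · exact hb
  have h2 : (T \ {a, b}).card = 1 := by
    rw [card_sdiff_of_subset h1, hT, card_pair hab]
  obtain ⟨c, hc⟩ := card_eq_one.1 h2
  have h3 : c ∈ T \ {a, b} := by rw [hc]; simp
  rw [mem_sdiff] at h3
  simp only [mem_insert, mem_singleton, not_or] at h3
  refine ⟨c, h3.1, h3.2.1, h3.2.2, ?_⟩
  rw [← union_sdiff_of_subset h1, hc]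
  ext x
  simp only [mem_union, mem_insert, mem_singleton]
  tauto

/-- two triangles of the high graph with a common edge are equal -/
lemma tri_unique (hG : NoC8 G) {T T' : Finset V} (hT : T ∈ Tri G) (hT' : T' ∈ Tri G) {a b : V}
    (hab : a ≠ b) (ha : a ∈ T) (hb : b ∈ T) (ha' : a ∈ T') (hb' : b ∈ T') : T = T' := by
  rw [mem_Tri] at hT hT'
  obtain ⟨c, hc, hca, hcb, e⟩ := third hT.1 ha hb hab
  obtain ⟨d, hd, hda, hdb, e'⟩ := third hT'.1 ha' hb' hab
  by_cases hcd : c = d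
  · rw [e, e', hcd]
  · exact (hi_noC4 hG hab hcd (hT.2 a ha c hc hca.symm) (hT.2 c hc b hb hcb)
      (hT'.2 b hb' d hd hdb.symm) (hT'.2 d hd a ha' hda)).elim

lemma inter_share (hG : NoC8 G) {T T' : Finset V} (hT : T ∈ Tri G) (hT' : T' ∈ Tri G)
    (hne : T ≠ T') {a b b' : V} (hab : a ≠ b) (hab' : a ≠ b') (ha : a ∈ T) (hb : b ∈ T)
    (ha' : a ∈ T') (hb' : b' ∈ T') : cod G b b' ≤ 5 := by
  have hT1 := mem_Tri.1 hT
  have hT1' := mem_Tri.1 hT'
  obtain ⟨c, hc, hca, hcb, e⟩ := third hT1.1 ha hb hab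
  have hbb : b ≠ b' := by
    rintro rfl
    exact hne (tri_unique hG hT hT' hab ha hb ha' hb')
  have hcb' : b' ≠ c := by
    rintro rfl
    exact hne (tri_unique hG hT hT' hab' ha hc ha' hb')
  refine cod_low hbb fun hh => ?_
  exact hi_noC4 hG hab.symm hcb' hh (hT1'.2 b' hb' a ha' hab'.symm) (hT1.2 a ha c hc hca.symm)
    (hT1.2 c hc b hb hcb)

/-- common neighbourhoods of edges of different triangles are almost disjoint -/
lemma inter_small (hG : NoC8 G) {T T' : Finset V} (hT : T ∈ Tri G) (hT' : T' ∈ Tri G)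
    (hne : T ≠ T') {a b a' b' : V} (hab : a ≠ b) (hab' : a' ≠ b') (ha : a ∈ T) (hb : b ∈ T)
    (ha' : a' ∈ T') (hb' : b' ∈ T') :
    ((G.neighborFinset a ∩ G.neighborFinset b) ∩
      (G.neighborFinset a' ∩ G.neighborFinset b')).card ≤ 5 := by
  by_cases h1 : a = a'
  · subst h1
    refine le_trans (card_le_card ?_) (inter_share hG hT hT' hne hab hab' ha hb ha' hb')
    intro x hx
    simp only [mem_inter] at hx ⊢
    exact ⟨hx.1.2, hx.2.2⟩
  by_cases h2 : a = b'
  · subst h2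
    refine le_trans (card_le_card ?_) (inter_share hG hT hT' hne hab hab'.symm ha hb hb' ha')
    intro x hx
    simp only [mem_inter] at hx ⊢
    exact ⟨hx.1.2, hx.2.1⟩
  by_cases h3 : b = a'
  · subst h3
    refine le_trans (card_le_card ?_) (inter_share hG hT hT' hne hab.symm hab' hb ha ha' hb')
    intro x hx
    simp only [mem_inter] at hx ⊢
    exact ⟨hx.1.1, hx.2.2⟩
  by_cases h4 : b = b'
  · subst h4
    refine le_trans (card_le_card ?_)
      (inter_share hG hT hT' hne hab.symm hab'.symm hb ha hb' ha')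
    intro x hx
    simp only [mem_inter] at hx ⊢
    exact ⟨hx.1.1, hx.2.1⟩
  refine le_trans ?_ (show 1 ≤ 5 by norm_num)
  rw [card_le_one]
  intro v hv v' hv'
  by_contra hvv
  simp only [mem_inter, SimpleGraph.mem_neighborFinset] at hv hv'
  obtain ⟨⟨v1, v2⟩, v3, v4⟩ := hv
  obtain ⟨⟨w1, w2⟩, w3, w4⟩ := hv'
  have hT1 := mem_Tri.1 hT
  have hT1' := mem_Tri.1 hT'
  have H := hT1.2 a ha b hb hab
  have H' := hT1'.2 a' ha' b' hb' hab'
  obtain ⟨x, x1, x2, x3⟩ := H.pick {a', b', v, v'} (le_trans card_le_four (by norm_num))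
  obtain ⟨y, y1, y2, y3⟩ := H'.pick {a, b, v, v', x} card_le_five
  simp only [mem_insert, mem_singleton, not_or] at x3 y3
  obtain ⟨p1, p2, p3, p4⟩ := x3
  obtain ⟨q1, q2, q3, q4, q5⟩ := y3
  refine hG a x b v a' y b' v' ?_ x1 x2 v2 v3.symm y1 y2 w4 w1.symm
  simp only [List.nodup_cons, List.mem_cons, List.not_mem_nil, or_false, not_or,
    not_false_eq_true, List.nodup_nil, and_true]
  exact ⟨⟨x1.ne, hab, v1.ne, h1, Ne.symm q1, h2, w1.ne⟩,
    ⟨x2.ne, p3, p1, Ne.symm q5, p2, p4⟩,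
    ⟨v2.ne, h3, Ne.symm q2, h4, w2.ne⟩,
    ⟨v3.ne.symm, Ne.symm q3, v4.ne.symm, hvv⟩, ⟨y1.ne, hab', w3.ne⟩,
    ⟨y2.ne, q4⟩, w4.ne⟩

/-- every triangle has an edge of largest codegree -/
lemma exists_top {T : Finset V} (hT : T ∈ Tri G) : ∃ p : V × V × V,
    p.1 ≠ p.2.1 ∧ p.1 ∈ T ∧ p.2.1 ∈ T ∧ p.2.2 ∈ T ∧ p.2.2 ≠ p.1 ∧ p.2.2 ≠ p.2.1 ∧
    T = {p.1, p.2.1, p.2.2} ∧ cod G p.2.1 p.2.2 ≤ cod G p.1 p.2.1 ∧
    cod G p.2.2 p.1 ≤ cod G p.1 p.2.1 := by
  have hT1 := mem_Tri.1 hT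
  obtain ⟨a, b, c, hab, hac, hbc, e⟩ := card_eq_three.1 hT1.1
  have ma : a ∈ T := by rw [e]; simp
  have mb : b ∈ T := by rw [e]; simp
  have mc : c ∈ T := by rw [e]; simp
  have c1 := cod_comm (G := G) a b
  have c2 := cod_comm (G := G) b c
  have c3 := cod_comm (G := G) c a
  rcases le_total (cod G b c) (cod G a b) with h1 | h1
  · rcases le_total (cod G c a) (cod G a b) with h2 | h2
    · exact ⟨(a, b, c), hab, ma, mb, mc, hac.symm, hbc.symm, e, h1, h2⟩
    · refine ⟨(c, a, b), hac.symm, mc, ma, mb, hbc, hab.symm, ?_, h2, ?_⟩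
      · rw [e]; ext x; simp only [mem_insert, mem_singleton]; tauto
      · show cod G b c ≤ cod G c a
        omega
  · rcases le_total (cod G c a) (cod G b c) with h2 | h2
    · refine ⟨(b, c, a), hbc, mb, mc, ma, hab, hac, ?_, h2, h1⟩
      rw [e]; ext x; simp only [mem_insert, mem_singleton]; tauto
    · refine ⟨(c, a, b), hac.symm, mc, ma, mb, hbc, hab.symm, ?_, ?_, h2⟩
      · rw [e]; ext x; simp only [mem_insert, mem_singleton]; tauto
      · show cod G a b ≤ cod G c a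
        omega

/-- union bound for an almost disjoint family -/
lemma almost_disjoint {ι : Type*} [DecidableEq ι] (I : Finset ι) (S : ι → Finset V)
    (h : ∀ i ∈ I, ∀ j ∈ I, i ≠ j → (S i ∩ S j).card ≤ 5) :
    ∑ i ∈ I, (S i).card ≤ (I.biUnion S).card + 5 * I.card ^ 2 := by
  induction I using Finset.induction_on with
  | empty => simp
  | insert j I hj ih =>
    have ih' := ih fun i hi k hk hik => h i (mem_insert_of_mem hi) k (mem_insert_of_mem hk) hik
    rw [sum_insert hj, biUnion_insert, card_insert_of_notMem hj]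
    have h1 : (S j ∩ I.biUnion S).card ≤ 5 * I.card := by
      rw [inter_biUnion]
      refine card_biUnion_le.trans ?_
      refine (sum_le_sum fun i hi => h j (mem_insert_self _ _) i (mem_insert_of_mem hi)
        (fun e => hj (e ▸ hi))).trans ?_
      rw [sum_const, smul_eq_mul, mul_comm]
    have h2 := card_union_add_card_inter (S j) (I.biUnion S)
    nlinarith

end Pool.Agent.Helper92.HX
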