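import Pool.Agent.Helper92.HX.Exact

namespace Pool.Agent.Helper92.HX

open Finset

variable {V : Type*} [Fintype V] [DecidableEq V]

lemma isHex_of_list {G : SimpleGraph V} {a b c d e g : V} (hnd : [a, b, c, d, e, g].Nodup)
    (h1 : G.Adj a b) (h2 : G.Adj b c) (h3 : G.Adj c d) (h4 : G.Adj d e) (h5 : G.Adj e g)
    (h6 : G.Adj g a) : IsHex G ![a, b, c, d, e, g] := by
  constructor
  · have e' : List.ofFn ![a, b, c, d, e, g] = [a, b, c, d, e, g] := by simp [List.ofFn_succ]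
    rw [← e'] at hnd
    exact List.nodup_ofFn.1 hnd
  · intro i
    fin_cases i
    · exact h1
    · exact h2
    · exact h3
    · exact h4
    · exact h5
    · exact h6

lemma pickOff {T : Finset V} (hT : T.card = 3) (hn : 8 ≤ Fintype.card V) (S : Finset V)
    (hS : S.card ≤ 4) : ∃ w, w ∉ T ∧ w ∉ S := by
  by_contra hc
  push Not at hc
  have : (univ : Finset V) ⊆ T ∪ S := by
    intro w _
    rw [mem_union]
    by_cases h : w ∈ T
    · exact Or.inl h
    · exact Or.inr (hc w h)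
  have h1 := card_le_card this
  have h2 := card_union_le T S
  rw [card_univ] at h1
  omega

/-- every edge of the extremal graph lies in a hexagon -/
lemma gam_edge_hex {T : Finset V} (hT : T.card = 3) {u v : V} (hu : u ∉ T) (hv : v ∉ T)
    (huv : u ≠ v) (hn : 8 ≤ Fintype.card V) {x y : V} (hxy : (Gam T u v).Adj x y) :
    ∃ f, IsHex (Gam T u v) f ∧ ((f 0 = x ∧ f 1 = y) ∨ (f 0 = y ∧ f 1 = x)) := by
  have ne : ∀ {x y : V}, x ∈ T → y ∉ T → x ≠ y := fun hx hy e => hy (e ▸ hx)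
  have al : ∀ {x y : V}, x ∈ T → x ≠ y → (Gam T u v).Adj x y := fun hx hne => ⟨hne, Or.inl hx⟩
  have ar : ∀ {x y : V}, y ∈ T → x ≠ y → (Gam T u v).Adj x y :=
    fun hy hne => ⟨hne, Or.inr (Or.inl hy)⟩
  have auv : (Gam T u v).Adj u v := ⟨huv, Or.inr (Or.inr (Or.inl ⟨rfl, rfl⟩))⟩
  -- a hub and an ordinary vertex
  have key1 : ∀ {x y : V}, x ∈ T → y ∉ T → ∃ f, IsHex (Gam T u v) f ∧ (f 0 = x ∧ f 1 = y) := by
    intro x y hx hy
    obtain ⟨b, c, hb, hc, hxb, hxc, hbc⟩ := hubs_of_one hT hx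
    obtain ⟨p, hp, hp'⟩ := pickOff hT hn {y} (by simp)
    obtain ⟨q, hq, hq'⟩ := pickOff hT hn {y, p} (le_trans card_le_two (by norm_num))
    simp only [mem_singleton, mem_insert, not_or] at hp' hq'
    refine ⟨_, isHex_of_list (a := x) (b := y) (c := b) (d := p) (e := c) (g := q) ?_
      (al hx (ne hx hy)) (ar hb (ne hb hy).symm) (al hb (ne hb hp)) (ar hc (ne hc hp).symm)
      (al hc (ne hc hq)) (ar hx (ne hx hq).symm), rfl, rfl⟩
    simp only [List.nodup_cons, List.mem_cons, List.not_mem_nil, or_false, not_or,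
      not_false_eq_true, List.nodup_nil, and_true]
    exact ⟨⟨ne hx hy, hxb, ne hx hp, hxc, ne hx hq⟩,
      ⟨(ne hb hy).symm, Ne.symm hp', (ne hc hy).symm, Ne.symm hq'.1⟩,
      ⟨ne hb hp, hbc, ne hb hq⟩, ⟨(ne hc hp).symm, Ne.symm hq'.2⟩, ne hc hq⟩
  by_cases hx : x ∈ T
  · by_cases hy : y ∈ T
    · have hne := hxy.1
      obtain ⟨c, hc, hcx, hcy⟩ := hubs_of_two hT hx hy hne
      obtain ⟨p, hp, hp'⟩ := pickOff hT hn {u, v} (le_trans card_le_two (by norm_num))
      simp only [mem_singleton, mem_insert, not_or] at hp'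
      refine ⟨_, isHex_of_list (a := x) (b := y) (c := p) (d := c) (e := u) (g := v) ?_
        hxy (al hy (ne hy hp)) (ar hc (ne hc hp).symm) (al hc (ne hc hu)) auv
        (ar hx (ne hx hv).symm), Or.inl ⟨rfl, rfl⟩⟩
      simp only [List.nodup_cons, List.mem_cons, List.not_mem_nil, or_false, not_or,
        not_false_eq_true, List.nodup_nil, and_true]
      exact ⟨⟨hne, ne hx hp, hcx.symm, ne hx hu, ne hx hv⟩,
        ⟨ne hy hp, hcy.symm, ne hy hu, ne hy hv⟩, ⟨(ne hc hp).symm, hp'.1, hp'.2⟩,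
        ⟨ne hc hu, ne hc hv⟩, huv⟩
    · obtain ⟨f, h1, h2⟩ := key1 hx hy
      exact ⟨f, h1, Or.inl h2⟩
  · by_cases hy : y ∈ T
    · obtain ⟨f, h1, h2⟩ := key1 hy hx
      exact ⟨f, h1, Or.inr h2⟩
    · have hne := hxy.1
      have hor := gam_off hxy hx hy
      obtain ⟨a, b, c, hab, hac, hbc, e⟩ := card_eq_three.1 hT
      have ha : a ∈ T := by rw [e]; simp
      have hb : b ∈ T := by rw [e]; simp
      have hc : c ∈ T := by rw [e]; simp
      obtain ⟨p, hp, hp'⟩ := pickOff hT hn {x, y} (le_trans card_le_two (by norm_num))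
      simp only [mem_singleton, mem_insert, not_or] at hp'
      refine ⟨_, isHex_of_list (a := x) (b := y) (c := a) (d := p) (e := b) (g := c) ?_
        hxy (ar ha (ne ha hy).symm) (al ha (ne ha hp)) (ar hb (ne hb hp).symm) (al hb hbc)
        (al hc (ne hc hx)), Or.inl ⟨rfl, rfl⟩⟩
      simp only [List.nodup_cons, List.mem_cons, List.not_mem_nil, or_false, not_or,
        not_false_eq_true, List.nodup_nil, and_true]
      exact ⟨⟨hne, (ne ha hx).symm, Ne.symm hp'.1, (ne hb hx).symm, (ne hc hx).symm⟩,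
        ⟨(ne ha hy).symm, Ne.symm hp'.2, (ne hb hy).symm, (ne hc hy).symm⟩,
        ⟨ne ha hp, hab, hac⟩, ⟨(ne hb hp).symm, (ne hc hp).symm⟩, hbc⟩

/-- a proper subgraph of the extremal graph has fewer hexagons -/
lemma gam_strict {T : Finset V} (hT : T.card = 3) {u v : V} (hu : u ∉ T) (hv : v ∉ T)
    (huv : u ≠ v) (hn : 8 ≤ Fintype.card V) {G : SimpleGraph V} [DecidableRel G.Adj]
    (hle : ∀ x y, G.Adj x y → (Gam T u v).Adj x y)
    (he : hexCount (Gam T u v) ≤ hexCount G) : G = Gam T u v := by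
  have hsub : (univ.filter fun f : Fin 6 → V => IsHex G f) ⊆
      (univ.filter fun f : Fin 6 → V => IsHex (Gam T u v) f) := by
    intro f hf
    rw [mem_filter] at hf ⊢
    exact ⟨mem_univ _, hf.2.1, fun i => hle _ _ (hf.2.2 i)⟩
  have heq := eq_of_subset_of_card_le hsub he
  ext x y
  refine ⟨fun h => hle x y h, fun h => ?_⟩
  obtain ⟨f, hf, hor⟩ := gam_edge_hex hT hu hv huv hn h
  have : f ∈ (univ.filter fun f : Fin 6 → V => IsHex G f) := by
    rw [heq, mem_filter]
    exact ⟨mem_univ _, hf⟩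
  rw [mem_filter] at this
  have h01 := this.2.2 0
  rcases hor with ⟨a, b⟩ | ⟨a, b⟩
  · rw [← a, ← b]; exact h01
  · rw [← a, ← b]; exact h01.symm

end Pool.Agent.Helper92.HX
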